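import Pool.Agent.V8H74.RK.Size

/-!
# The blocks: their number
-/

set_option autoImplicit false

namespace Pool.Agent.V8H74.RK

theorem lt_pow_lam (n : ℕ) : n < 2 ^ lam n := Nat.lt_pow_succ_log_self one_lt_two n

theorem k_depth (n k : ℕ) (hk : 1 ≤ k) : 6 * lam n ≤ k * depth n k := by
  unfold depth
  have := Nat.div_add_mod (6 * lam n) k
  have := Nat.mod_lt (6 * lam n) (show 0 < k by omega)
  rw [mul_add, mul_one]
  omega

theorem k_depth_le (n k : ℕ) (hkl : k ≤ lam n) : k * depth n k ≤ 7 * lam n := by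
  unfold depth
  have := Nat.mul_div_le (6 * lam n) k
  rw [mul_add, mul_one]
  omega

theorem small_pow (n k : ℕ) (hk : 1 ≤ k) : (n : ℝ) * (7 / 8) ^ (k * depth n k) ≤ 1 := by
  have h1 : ((7 : ℝ) / 8) ^ (k * depth n k) ≤ (7 / 8) ^ (6 * lam n) :=
    pow_le_pow_of_le_one (by norm_num) (by norm_num) (k_depth n k hk)
  have h2 : ((7 : ℝ) / 8) ^ (6 * lam n) ≤ (1 / 2) ^ lam n := by
    rw [pow_mul]
    exact pow_le_pow_left₀ (by norm_num) (by norm_num) _
  have h3 : (n : ℝ) ≤ 2 ^ lam n := by exact_mod_cast (lt_pow_lam n).le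
  calc (n : ℝ) * (7 / 8) ^ (k * depth n k) ≤ 2 ^ lam n * (1 / 2) ^ lam n :=
        mul_le_mul h3 (h1.trans h2) (by positivity) (by positivity)
    _ = 1 := by rw [← mul_pow]; norm_num

theorem pow_eleven (k : ℕ) (hk : 2 ≤ k) : 56 * k ≤ 11 ^ k := by
  induction k, hk using Nat.le_induction with
  | base => norm_num
  | succ k h ih =>
    rw [pow_succ]
    omega

/-- the size of the layouts of a set of at most `n` variables -/
theorem layout_large {n : ℕ} (τ : List (Fin n)) {k : ℕ} (hk : 2 ≤ k) (hkl : k ≤ lam n)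
    (S : List (Fin n)) (hS : S.Nodup) (hc : ∀ v ∈ S, τ.count v ≤ k) :
    (S.length : ℝ) ≤ (44 * lam n * ((layout τ k (chunks n k) (depth n k) S).length : ℝ)) ^ k := by
  set D := depth n k with hD
  set M := chunks n k with hM
  have hD1 : 1 ≤ D := Nat.succ_pos _
  have hMD : M = 4 * k ^ 2 * D := rfl
  have hSn : S.length ≤ n := by
    have := hS.length_le_card
    rwa [Fintype.card_fin] at this
  have hk1 : 1 ≤ k := by omega
  have hM4 : 4 * k ^ 2 ≤ M := by
    rw [hMD]
    exact Nat.le_mul_of_pos_right _ hD1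
  have hM0 : (0 : ℝ) < M := by
    have : 0 < 4 * k ^ 2 := by positivity
    have : 0 < M := by omega
    exact_mod_cast this
  have hD0 : (0 : ℝ) < D := by exact_mod_cast hD1
  have hkR : (0 : ℝ) < k := by exact_mod_cast hk1
  have h1 : (S.length : ℝ) * (7 / 8) ^ (k * D) ≤ 4 ^ k * M := by
    have h2 : (S.length : ℝ) * (7 / 8) ^ (k * D) ≤ 1 := by
      refine le_trans ?_ (small_pow n k hk1)
      exact mul_le_mul_of_nonneg_right (by exact_mod_cast hSn) (by positivity)
    have h3 : (1 : ℝ) ≤ 4 ^ k := one_le_pow₀ (by norm_num)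
    have h4 : (1 : ℝ) ≤ M := by
      have : 1 ≤ M := by
        have : 0 < 4 * k ^ 2 := by positivity
        omega
      exact_mod_cast this
    nlinarith
  have h5 := layout_size τ hk1 hM4 D S hS hc h1
  have h6 : (1 / 2 : ℝ) ≤ (1 - 2 * k ^ 2 / M) ^ D := by
    have h7 : (2 * k ^ 2 / M : ℝ) = 1 / (2 * D) := by
      rw [hMD]
      push_cast
      field_simp
      ring
    rw [h7]
    have h8 := one_add_mul_le_pow (a := -(1 / (2 * D) : ℝ)) (by
      rw [neg_le_neg_iff, div_le_iff₀ (by positivity)]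
      have : (1 : ℝ) ≤ D := by exact_mod_cast hD1
      linarith) D
    have h9 : (1 : ℝ) + D * -(1 / (2 * D)) = 1 / 2 := by
      field_simp
      ring
    rw [h9] at h8
    rw [sub_eq_add_neg]
    exact h8
  have h10 : (S.length : ℝ) ≤ 2 * (4 ^ k * M) * ((layout τ k M D S).length : ℝ) ^ k := by
    have h11 : (S.length : ℝ) * (1 / 2) ≤ S.length * (1 - 2 * k ^ 2 / M) ^ D :=
      mul_le_mul_of_nonneg_left h6 (Nat.cast_nonneg _)
    linarith
  refine h10.trans ?_
  rw [mul_pow]
  refine mul_le_mul_of_nonneg_right ?_ (by positivity)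
  have h12 : M ≤ 28 * k * lam n := by
    rw [hMD]
    calc 4 * k ^ 2 * D = 4 * k * (k * D) := by ring
      _ ≤ 4 * k * (7 * lam n) := Nat.mul_le_mul_left _ (k_depth_le n k hkl)
      _ = 28 * k * lam n := by ring
  have hL1 : 1 ≤ lam n := by unfold lam; omega
  have h13 : 56 * k * lam n ≤ 11 ^ k * lam n ^ k := by
    have h14 := pow_eleven k hk
    have h15 : lam n ≤ lam n ^ k := Nat.le_self_pow (by omega) _
    exact Nat.mul_le_mul h14 h15
  have h16 : 2 * (4 ^ k * M) ≤ (44 * lam n) ^ k := by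
    calc 2 * (4 ^ k * M) ≤ 2 * (4 ^ k * (28 * k * lam n)) :=
          Nat.mul_le_mul_left _ (Nat.mul_le_mul_left _ h12)
      _ = 4 ^ k * (56 * k * lam n) := by ring
      _ ≤ 4 ^ k * (11 ^ k * lam n ^ k) := Nat.mul_le_mul_left _ h13
      _ = (44 * lam n) ^ k := by
          rw [← mul_pow, ← mul_pow]
          congr 1
          ring
  have h17 : ((2 * (4 ^ k * M) : ℕ) : ℝ) ≤ (((44 * lam n) ^ k : ℕ) : ℝ) := by exact_mod_cast h16
  push_cast at h17
  exact h17

theorem concave_step {a N x C : ℝ} (ha0 : 0 < a) (ha1 : a ≤ 1) (hN : 0 < N) (hxN : x ≤ N) (hC : 0 ≤ C)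
    (h : N ^ (1 - a) ≤ a * C * x) : 1 + C * (N - x) ^ a ≤ C * N ^ a := by
  have h1 : (N - x) ^ a = N ^ a * (1 + -(x / N)) ^ a := by
    rw [← Real.mul_rpow hN.le]
    · congr 1
      field_simp
      ring
    · have : x / N ≤ 1 := (div_le_one hN).2 hxN
      linarith
  have h2 : (1 + -(x / N)) ^ a ≤ 1 + a * -(x / N) := by
    refine rpow_one_add_le_one_add_mul_self ?_ ha0.le ha1
    have : x / N ≤ 1 := (div_le_one hN).2 hxN
    linarith
  have hNa : 0 < N ^ a := Real.rpow_pos_of_pos hN a
  have h3 : (N - x) ^ a ≤ N ^ a - N ^ a * (a * (x / N)) := by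
    rw [h1]
    calc N ^ a * (1 + -(x / N)) ^ a ≤ N ^ a * (1 + a * -(x / N)) := mul_le_mul_of_nonneg_left h2 hNa.le
      _ = _ := by ring
  have h4 : 1 ≤ C * (N ^ a * (a * (x / N))) := by
    have h5 : N ^ (1 - a) * N ^ a = N := by
      rw [← Real.rpow_add hN]
      norm_num
    have h6 : N ≤ a * C * x * N ^ a := by
      calc N = N ^ (1 - a) * N ^ a := h5.symm
        _ ≤ a * C * x * N ^ a := mul_le_mul_of_nonneg_right h hNa.le
    have h7 : C * (N ^ a * (a * (x / N))) = a * C * x * N ^ a / N := by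
      field_simp
    rw [h7, le_div_iff₀ hN, one_mul]
    exact h6
  calc 1 + C * (N - x) ^ a ≤ 1 + C * (N ^ a - N ^ a * (a * (x / N))) := by
        have := mul_le_mul_of_nonneg_left h3 hC
        linarith
    _ = C * N ^ a + (1 - C * (N ^ a * (a * (x / N)))) := by ring
    _ ≤ C * N ^ a := by linarith

theorem layout_length_pos {n : ℕ} (τ : List (Fin n)) {k : ℕ} (hk : 2 ≤ k) (hkl : k ≤ lam n)
    (S : List (Fin n)) (hS : S.Nodup) (hc : ∀ v ∈ S, τ.count v ≤ k) (hne : S ≠ []) :
    1 ≤ (layout τ k (chunks n k) (depth n k) S).length := by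
  by_contra h0
  have h1 := layout_large τ hk hkl S hS hc
  have h2 : (layout τ k (chunks n k) (depth n k) S).length = 0 := by omega
  rw [h2, Nat.cast_zero, mul_zero, zero_pow (by omega)] at h1
  have h3 : 0 < S.length := List.length_pos_iff.2 hne
  have : (0 : ℝ) < S.length := by exact_mod_cast h3
  linarith

theorem length_filter_layout {n : ℕ} (τ : List (Fin n)) (k M D : ℕ) (S : List (Fin n)) (hS : S.Nodup)
    (hr : ∀ v ∈ S, 1 ≤ τ.count v) :
    (S.filter fun v => v ∉ layout τ k M D S).length + (layout τ k M D S).length = S.length := by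
  classical
  have h1 : (S.filter fun v => v ∉ layout τ k M D S).toFinset = S.toFinset \ (layout τ k M D S).toFinset := by
    ext v
    simp
  have h2 := List.toFinset_card_of_nodup (hS.filter fun v => decide (v ∉ layout τ k M D S))
  have h3 := List.toFinset_card_of_nodup (layout_nodup τ k M D S hS hr)
  have h4 := List.toFinset_card_of_nodup hS
  have h5 : (layout τ k M D S).toFinset ⊆ S.toFinset := fun v hv =>
    List.mem_toFinset.2 (layout_subset τ k M D S v (List.mem_toFinset.1 hv))
  rw [← h2, ← h3, ← h4, h1, Finset.card_sdiff_add_card_eq_card h5]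

theorem blocks_length {n : ℕ} (τ : List (Fin n)) {k : ℕ} (hk : 2 ≤ k) (hkl : k ≤ lam n) (j : ℕ)
    (S : List (Fin n)) (hS : S.Nodup) (hr : ∀ v ∈ S, 1 ≤ τ.count v) (hc : ∀ v ∈ S, τ.count v ≤ k) :
    ((blocks τ k (chunks n k) (depth n k) j S).length : ℝ) ≤
      88 * lam n * (S.length : ℝ) ^ (1 - 1 / k : ℝ) := by
  have hL1 : 1 ≤ lam n := by unfold lam; omega
  have hL : (1 : ℝ) ≤ lam n := by exact_mod_cast hL1
  have hkR : (2 : ℝ) ≤ k := by exact_mod_cast hk
  induction j generalizing S with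
  | zero =>
    simp only [blocks, List.length_nil, Nat.cast_zero]
    positivity
  | succ j ih =>
    rw [blocks]
    split_ifs with h
    · simp only [List.length_nil, Nat.cast_zero]
      positivity
    · set ℓ := layout τ k (chunks n k) (depth n k) S with hℓ
      rw [List.length_cons]
      push_cast
      have h1 := ih (S.filter fun v => v ∉ ℓ) (hS.filter _) (fun v hv => hr v (List.mem_filter.1 hv).1)
        (fun v hv => hc v (List.mem_filter.1 hv).1)
      have h2 := length_filter_layout τ k (chunks n k) (depth n k) S hS hr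
      rw [← hℓ] at h2
      have h3 : ((S.filter fun v => v ∉ ℓ).length : ℝ) = S.length - ℓ.length := by
        rw [← h2]
        push_cast
        ring
      rw [h3] at h1
      have hSpos : (0 : ℝ) < S.length := by
        have := List.length_pos_iff.2 h
        exact_mod_cast this
      have hle : (ℓ.length : ℝ) ≤ S.length := by
        have : ℓ.length ≤ S.length := by omega
        exact_mod_cast this
      have h4 := layout_large τ hk hkl S hS hc
      rw [← hℓ] at h4
      have h5 : (S.length : ℝ) ^ (1 / k : ℝ) ≤ 44 * lam n * ℓ.length := by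
        have h6 := Real.rpow_le_rpow hSpos.le h4 (show (0 : ℝ) ≤ 1 / k by positivity)
        rw [← Real.rpow_natCast, ← Real.rpow_mul (by positivity), mul_one_div_cancel (by positivity),
          Real.rpow_one] at h6
        exact h6
      have ha : (0 : ℝ) < 1 - 1 / k := by
        have : (1 : ℝ) / k ≤ 1 / 2 := one_div_le_one_div_of_le (by norm_num) hkR
        linarith
      have ha2 : (1 : ℝ) / 2 ≤ 1 - 1 / k := by
        have : (1 : ℝ) / k ≤ 1 / 2 := one_div_le_one_div_of_le (by norm_num) hkR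
        linarith
      have ha1 : (1 - 1 / k : ℝ) ≤ 1 := by
        have : (0 : ℝ) < 1 / k := by positivity
        linarith
      have h7 := concave_step ha ha1 hSpos hle (C := 88 * lam n) (by positivity) (by
        have e : (1 - (1 - 1 / k) : ℝ) = 1 / k := by ring
        rw [e]
        refine h5.trans ?_
        have h8 : (1 / 2 : ℝ) * (88 * lam n * ℓ.length) ≤ (1 - 1 / k) * (88 * lam n * ℓ.length) :=
          mul_le_mul_of_nonneg_right ha2 (by positivity)
        calc (44 * lam n * ℓ.length : ℝ) = 1 / 2 * (88 * lam n * ℓ.length) := by ring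
          _ ≤ _ := h8
          _ = _ := by ring)
      linarith

theorem blocks_spec {n : ℕ} (τ : List (Fin n)) (k M D : ℕ) (j : ℕ) (S : List (Fin n)) (hS : S.Nodup) :
    ∀ ℓ ∈ blocks τ k M D j S, ∃ S' : List (Fin n), S'.Nodup ∧ (∀ v ∈ S', v ∈ S) ∧ ℓ = layout τ k M D S' := by
  induction j generalizing S with
  | zero =>
    intro ℓ hℓ
    simp [blocks] at hℓ
  | succ j ih =>
    intro ℓ hℓ
    rw [blocks] at hℓ
    split_ifs at hℓ with h
    · simp at hℓ
    · rw [List.mem_cons] at hℓ
      rcases hℓ with rfl | hℓ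
      · exact ⟨S, hS, fun v hv => hv, rfl⟩
      · obtain ⟨S', h1, h2, h3⟩ := ih _ (hS.filter _) ℓ hℓ
        exact ⟨S', h1, fun v hv => (List.mem_filter.1 (h2 v hv)).1, h3⟩

theorem blocks_cover {n : ℕ} (τ : List (Fin n)) {k : ℕ} (hk : 2 ≤ k) (hkl : k ≤ lam n) (j : ℕ)
    (S : List (Fin n)) (hS : S.Nodup) (hr : ∀ v ∈ S, 1 ≤ τ.count v) (hc : ∀ v ∈ S, τ.count v ≤ k)
    (hj : S.length ≤ j) : ∀ v ∈ S, ∃ ℓ ∈ blocks τ k (chunks n k) (depth n k) j S, v ∈ ℓ := by
  induction j generalizing S with
  | zero =>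
    intro v hv
    have : S = [] := List.length_eq_zero_iff.1 (by omega)
    rw [this] at hv
    simp at hv
  | succ j ih =>
    intro v hv
    rw [blocks]
    have hne : S ≠ [] := List.ne_nil_of_mem hv
    rw [if_neg hne]
    by_cases h : v ∈ layout τ k (chunks n k) (depth n k) S
    · exact ⟨_, List.mem_cons_self, h⟩
    · have h2 := length_filter_layout τ k (chunks n k) (depth n k) S hS hr
      have h3 := layout_length_pos τ hk hkl S hS hc hne
      obtain ⟨ℓ, h4, h5⟩ := ih (S.filter fun v => v ∉ layout τ k (chunks n k) (depth n k) S) (hS.filter _)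
        (fun v hv => hr v (List.mem_filter.1 hv).1) (fun v hv => hc v (List.mem_filter.1 hv).1) (by omega) v (by
          rw [List.mem_filter]
          exact ⟨hv, by simpa using h⟩)
      exact ⟨ℓ, List.mem_cons_of_mem _ h4, h5⟩

end Pool.Agent.V8H74.RK
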