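import Pool.Agent.V8H74.RK.Main

/-!
# The size of the hitting set
-/

set_option autoImplicit false

namespace Pool.Agent.V8H74.RK

theorem seg_le (n k w : ℕ) (hkl : k ≤ lam n) (hw : 1 ≤ w) : seg n k w ≤ w ^ (199 * lam n ^ 2) := by
  unfold seg
  refine Nat.pow_le_pow_right hw ?_
  have h1 := k_depth_le n k hkl
  have h2 : chunks n k * depth n k = 4 * (k * depth n k) ^ 2 := by
    unfold chunks
    ring
  have h3 : (k * depth n k) ^ 2 ≤ (7 * lam n) ^ 2 := Nat.pow_le_pow_left h1 2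
  have hL1 : 1 ≤ lam n := by unfold lam; omega
  have h4 : 1 ≤ lam n ^ 2 := Nat.one_le_pow _ _ hL1
  rw [h2]
  nlinarith

theorem range_le (n k w e : ℕ) (hkl : k ≤ lam n) (hw : 1 ≤ w) :
    n * e * seg n k w ^ lam n + 1 ≤ 2 ^ lam n * (e + 1) * w ^ (199 * lam n ^ 3) := by
  have h1 : seg n k w ^ lam n ≤ w ^ (199 * lam n ^ 3) := by
    refine (Nat.pow_le_pow_left (seg_le n k w hkl hw) _).trans (le_of_eq ?_)
    rw [← pow_mul, show 199 * lam n ^ 2 * lam n = 199 * lam n ^ 3 by ring]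
  have h2 : 1 ≤ w ^ (199 * lam n ^ 3) := Nat.one_le_pow _ _ hw
  have h3 := lt_pow_lam n
  calc n * e * seg n k w ^ lam n + 1 ≤ n * (e + 1) * w ^ (199 * lam n ^ 3) + 1 * (e + 1) * w ^ (199 * lam n ^ 3) := by
        refine Nat.add_le_add (Nat.mul_le_mul (Nat.mul_le_mul_left _ (Nat.le_succ e)) h1) ?_
        rw [one_mul]
        exact Nat.mul_pos (Nat.succ_pos e) h2
    _ = (n + 1) * (e + 1) * w ^ (199 * lam n ^ 3) := by ring
    _ ≤ _ := Nat.mul_le_mul_right _ (Nat.mul_le_mul_right _ h3)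

theorem log_range (n k w e : ℕ) (hkl : k ≤ lam n) (hw : 1 ≤ w) :
    Real.log ((n * e * seg n k w ^ lam n + 1 : ℕ) : ℝ) ≤ 200 * (lam n : ℝ) ^ 3 * Real.log (2 * w * (e + 1)) := by
  have hwR : (1 : ℝ) ≤ w := by exact_mod_cast hw
  have he : (1 : ℝ) ≤ (e : ℝ) + 1 := by
    have : (0 : ℝ) ≤ e := Nat.cast_nonneg e
    linarith
  have hL1 : 1 ≤ lam n := by unfold lam; omega
  have hL : (1 : ℝ) ≤ lam n := by exact_mod_cast hL1
  have h1 : ((n * e * seg n k w ^ lam n + 1 : ℕ) : ℝ) ≤ 2 ^ lam n * (e + 1) * w ^ (199 * lam n ^ 3) := by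
    exact_mod_cast range_le n k w e hkl hw
  have h0 : (0 : ℝ) < ((n * e * seg n k w ^ lam n + 1 : ℕ) : ℝ) := by
    exact_mod_cast Nat.succ_pos _
  refine (Real.log_le_log h0 h1).trans ?_
  rw [Real.log_mul (by positivity) (by positivity), Real.log_mul (by positivity) (by positivity), Real.log_pow,
    Real.log_pow, Real.log_mul (by positivity) (by positivity), Real.log_mul (by positivity) (by positivity)]
  push_cast
  have ha : 0 < Real.log 2 := Real.log_pos (by norm_num)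
  have hb : 0 ≤ Real.log (w : ℝ) := Real.log_nonneg hwR
  have hc : 0 ≤ Real.log ((e : ℝ) + 1) := Real.log_nonneg he
  have h3 : (lam n : ℝ) ≤ (lam n : ℝ) ^ 3 := by
    calc (lam n : ℝ) = (lam n : ℝ) ^ 1 := (pow_one _).symm
      _ ≤ _ := pow_le_pow_right₀ hL (by norm_num)
  have h4 : (1 : ℝ) ≤ (lam n : ℝ) ^ 3 := one_le_pow₀ hL
  have e1 : (lam n : ℝ) * Real.log 2 ≤ 200 * (lam n : ℝ) ^ 3 * Real.log 2 :=
    mul_le_mul_of_nonneg_right (by linarith) ha.le
  have e2 : Real.log ((e : ℝ) + 1) ≤ 200 * (lam n : ℝ) ^ 3 * Real.log (e + 1) := by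
    have : 1 * Real.log ((e : ℝ) + 1) ≤ 200 * (lam n : ℝ) ^ 3 * Real.log (e + 1) :=
      mul_le_mul_of_nonneg_right (by linarith) hc
    linarith
  have e3 : 199 * (lam n : ℝ) ^ 3 * Real.log w ≤ 200 * (lam n : ℝ) ^ 3 * Real.log w :=
    mul_le_mul_of_nonneg_right (by linarith) hb
  calc _ ≤ 200 * (lam n : ℝ) ^ 3 * Real.log 2 + 200 * (lam n : ℝ) ^ 3 * Real.log (e + 1) +
        200 * (lam n : ℝ) ^ 3 * Real.log w := by linarith
    _ = _ := by ring

theorem lightBlocks_length {n : ℕ} (τ : List (Fin n)) (k : ℕ) (hk : 2 ≤ k) (hkl : k ≤ lam n) :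
    ((lightBlocks τ k).length : ℝ) ≤ 88 * lam n * (n : ℝ) ^ (1 - 1 / k : ℝ) := by
  unfold lightBlocks
  set S0 : List (Fin n) := (List.finRange n).filter fun v => decide (1 ≤ τ.count v ∧ τ.count v ≤ k) with hS0
  have hS0n : S0.Nodup := (List.nodup_finRange n).filter _
  have hS0m : ∀ v, v ∈ S0 ↔ 1 ≤ τ.count v ∧ τ.count v ≤ k := by
    intro v
    rw [hS0, List.mem_filter, decide_eq_true_iff]
    simp
  have hlen : S0.length ≤ n := by
    have := hS0n.length_le_card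
    rwa [Fintype.card_fin] at this
  refine (blocks_length τ hk hkl n S0 hS0n (fun v hv => ((hS0m v).1 hv).1) (fun v hv => ((hS0m v).1 hv).2)).trans ?_
  refine mul_le_mul_of_nonneg_left ?_ (by positivity)
  have hkR : (2 : ℝ) ≤ k := by exact_mod_cast hk
  have : (1 : ℝ) / k ≤ 1 / 2 := one_div_le_one_div_of_le (by norm_num) hkR
  exact Real.rpow_le_rpow (Nat.cast_nonneg _) (by exact_mod_cast hlen) (by linarith)

/-- the size of the hitting set -/
theorem log_card {n : ℕ} (τ : List (Fin n)) (k w e : ℕ) (hk : 2 ≤ k) (hkl : k ≤ lam n) (hw : 1 ≤ w) :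
    Real.log ((hittingSet τ k w e).card : ℝ) ≤
      ((Finset.univ.filter fun v => k < τ.count v).card : ℝ) * Real.log (e + 1) +
        17600 * (lam n : ℝ) ^ 4 * (n : ℝ) ^ (1 - 1 / k : ℝ) * Real.log (2 * w * (e + 1)) := by
  have hwR : (1 : ℝ) ≤ w := by exact_mod_cast hw
  have he : (1 : ℝ) ≤ (e : ℝ) + 1 := by
    have : (0 : ℝ) ≤ e := Nat.cast_nonneg e
    linarith
  have h2we : (1 : ℝ) ≤ 2 * w * (e + 1) := by nlinarith
  have h0 : 0 ≤ ((Finset.univ.filter fun v => k < τ.count v).card : ℝ) * Real.log (e + 1) :=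
    mul_nonneg (Nat.cast_nonneg _) (Real.log_nonneg he)
  have h1 : (0 : ℝ) ≤ (n : ℝ) ^ (1 - 1 / k : ℝ) := Real.rpow_nonneg (Nat.cast_nonneg _) _
  have h2 : 0 ≤ Real.log (2 * w * (e + 1)) := Real.log_nonneg h2we
  by_cases hz : (hittingSet τ k w e).card = 0
  · rw [hz, Nat.cast_zero, Real.log_zero]
    positivity
  have h3 : ((hittingSet τ k w e).card : ℝ) ≤ ((n * e * seg n k w ^ lam n + 1 : ℕ) : ℝ) ^ (lightBlocks τ k).length *
      ((e : ℝ) + 1) ^ (Finset.univ.filter fun v => k < τ.count v).card := by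
    exact_mod_cast card_hittingSet τ k w e
  have h4 : (0 : ℝ) < (hittingSet τ k w e).card := by exact_mod_cast Nat.pos_of_ne_zero hz
  have h5 : (0 : ℝ) < ((n * e * seg n k w ^ lam n + 1 : ℕ) : ℝ) := by
    exact_mod_cast Nat.succ_pos _
  refine (Real.log_le_log h4 h3).trans ?_
  rw [Real.log_mul (by positivity) (by positivity), Real.log_pow, Real.log_pow, add_comm]
  refine add_le_add le_rfl ?_
  have h6 : 0 ≤ Real.log ((n * e * seg n k w ^ lam n + 1 : ℕ) : ℝ) :=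
    Real.log_nonneg (by exact_mod_cast Nat.succ_pos _)
  calc ((lightBlocks τ k).length : ℝ) * Real.log ((n * e * seg n k w ^ lam n + 1 : ℕ) : ℝ) ≤
        (88 * lam n * (n : ℝ) ^ (1 - 1 / k : ℝ)) * Real.log ((n * e * seg n k w ^ lam n + 1 : ℕ) : ℝ) :=
        mul_le_mul_of_nonneg_right (lightBlocks_length τ k hk hkl) h6
    _ ≤ (88 * lam n * (n : ℝ) ^ (1 - 1 / k : ℝ)) * (200 * (lam n : ℝ) ^ 3 * Real.log (2 * w * (e + 1))) :=
        mul_le_mul_of_nonneg_left (log_range n k w e hkl hw) (by positivity)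
    _ = _ := by ring

/-- the values of the generator -/
theorem gen_le (W : ℕ) (hW : 1 ≤ W) (l r y Y : ℕ) (hY1 : 1 ≤ Y) (hY : y ≤ Y) (hr : r < 2 ^ l) :
    2 * gen W l r y ≤ (2 * Y) ^ ((W + 1) ^ l) := by
  induction l generalizing r y Y with
  | zero =>
    rw [gen, pow_zero, pow_one]
    omega
  | succ l ih =>
    rw [gen]
    have h1 : r / 2 ^ l ≤ 1 := by
      rw [pow_succ] at hr
      have : r / 2 ^ l < 2 := Nat.div_lt_of_lt_mul hr
      omega
    rw [Nat.cast_id]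
    have h2 : y ^ W + r / 2 ^ l * y ^ (W - 1) ≤ 2 * Y ^ W := by
      have h3 : y ^ W ≤ Y ^ W := Nat.pow_le_pow_left hY W
      have h4 : y ^ (W - 1) ≤ Y ^ W :=
        (Nat.pow_le_pow_left hY _).trans (Nat.pow_le_pow_right hY1 (Nat.sub_le _ _))
      have h5 : (r / 2 ^ l) * y ^ (W - 1) ≤ 1 * Y ^ W := Nat.mul_le_mul h1 h4
      omega
    refine (ih (r % 2 ^ l) _ (2 * Y ^ W) (Nat.mul_pos (by norm_num) (Nat.pow_pos hY1)) h2
      (Nat.mod_lt _ (Nat.pow_pos (by norm_num)))).trans ?_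
    rw [pow_succ', pow_mul (2 * Y)]
    refine Nat.pow_le_pow_left ?_ _
    have h6 : 2 ^ 2 ≤ 2 ^ (W + 1) := Nat.pow_le_pow_right (by norm_num) (by omega)
    calc 2 * (2 * Y ^ W) = 2 ^ 2 * Y ^ W := by ring
      _ ≤ 2 ^ (W + 1) * Y ^ (W + 1) := Nat.mul_le_mul h6 (Nat.pow_le_pow_right hY1 (Nat.le_succ _))
      _ = (2 * Y) ^ (W + 1) := (mul_pow _ _ _).symm

/-- the coordinates of the points of the hitting set -/
theorem coord_le {n : ℕ} (τ : List (Fin n)) (k w e : ℕ) (hw : 1 ≤ w) (a : Fin n → ℕ) (ha : a ∈ hittingSet τ k w e)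
    (i : Fin n) : a i ≤ (2 * (n * e * seg n k w ^ lam n + e + 1)) ^ ((seg n k w + 1) ^ lam n) := by
  classical
  have hW : 1 ≤ seg n k w := Nat.one_le_pow _ _ hw
  set S0 : List (Fin n) := (List.finRange n).filter fun v => decide (1 ≤ τ.count v ∧ τ.count v ≤ k) with hS0
  have hS0n : S0.Nodup := (List.nodup_finRange n).filter _
  have hS0m : ∀ v, v ∈ S0 ↔ 1 ≤ τ.count v ∧ τ.count v ≤ k := by
    intro v
    rw [hS0, List.mem_filter, decide_eq_true_iff]
    simp
  set Y := n * e * seg n k w ^ lam n + e + 1 with hY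
  have hspec : ∀ ℓ ∈ lightBlocks τ k, ℓ.length ≤ n := by
    intro ℓ hℓ
    obtain ⟨S', h1, h2, h3⟩ := blocks_spec τ k (chunks n k) (depth n k) n S0 hS0n ℓ hℓ
    have h4 : ℓ.Nodup := by
      rw [h3]
      exact layout_nodup _ _ _ _ _ h1 fun v hv => ((hS0m v).1 (h2 v hv)).1
    have := h4.length_le_card
    rwa [Fintype.card_fin] at this
  have hbase : e ≤ (2 * Y) ^ ((seg n k w + 1) ^ lam n) := by
    have h1 : 1 ≤ (seg n k w + 1) ^ lam n := Nat.one_le_pow _ _ (Nat.succ_pos _)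
    calc e ≤ 2 * Y := by omega
      _ = (2 * Y) ^ 1 := (pow_one _).symm
      _ ≤ _ := Nat.pow_le_pow_right (by omega) h1
  unfold hittingSet at ha
  revert ha hspec
  generalize lightBlocks τ k = bl
  intro ha hspec
  induction bl generalizing a with
  | nil =>
    rw [List.foldr_nil, Fintype.mem_piFinset] at ha
    have h1 := ha i
    refine le_trans ?_ hbase
    split_ifs at h1
    · rw [Finset.mem_range] at h1
      omega
    · rw [Finset.mem_singleton] at h1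
      omega
  | cons ℓ bl ih =>
    rw [List.foldr_cons, Finset.mem_image₂] at ha
    obtain ⟨y, hy, b, hb, rfl⟩ := ha
    rw [Finset.mem_range] at hy
    unfold fill
    split_ifs with h1
    · have h2 : ℓ.idxOf i < 2 ^ lam n :=
        (List.idxOf_lt_length_iff.2 h1).trans_le ((hspec ℓ List.mem_cons_self).trans (lt_pow_lam n).le)
      have h3 := gen_le (seg n k w) hW (lam n) (ℓ.idxOf i) y Y (by omega) (by omega) h2
      omega
    · exact ih b hb (fun ℓ' h' => hspec ℓ' (List.mem_cons_of_mem _ h'))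

end Pool.Agent.V8H74.RK
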