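import Pool.Agent.V8H74.RK.Defs

/-!
# Existence of a good division of the variables
-/

set_option autoImplicit false

namespace Pool.Agent.V8H74.RK

open Finset

section

variable {n : ℕ} (τ : List (Fin n)) (M : ℕ) (S : List (Fin n))

open Classical in
theorem cnt_take_succ (i : ℕ) (v : Fin n) (h : τ[i]? = some v) :
    cnt (τ.take (i + 1)) S = cnt (τ.take i) S + if v ∈ S then 1 else 0 := by
  unfold cnt
  rw [List.take_add_one, h, List.countP_append]
  simp only [Option.toList_some, List.countP_singleton]
  congr 1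
  by_cases hv : v ∈ S <;> simp [hv]

theorem cnt_mono {i j : ℕ} (h : i ≤ j) : cnt (τ.take i) S ≤ cnt (τ.take j) S := by
  unfold cnt
  exact List.Sublist.countP_le (List.take_sublist_take_left h)

theorem cnt_take_le (i : ℕ) : cnt (τ.take i) S ≤ cnt τ S := by
  unfold cnt
  exact List.Sublist.countP_le (List.take_sublist _ _)

theorem chunk_mono : Monotone (chunk τ M S) := fun _ _ h => Nat.div_le_div_right (cnt_mono τ S h)

theorem chunk_lt (hM : 1 ≤ M) (i : ℕ) : chunk τ M S i < M := by
  unfold chunk
  rw [Nat.div_lt_iff_lt_mul (Nat.succ_pos _)]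
  refine (cnt_take_le τ S i).trans_lt ?_
  have := Nat.div_add_mod (cnt τ S) M
  have h2 := Nat.mod_lt (cnt τ S) (show 0 < M by omega)
  nlinarith

/-- places with elements of `S` are determined by their number -/
theorem place_inj {i j : ℕ} {u v : Fin n} (hi : τ[i]? = some u) (hj : τ[j]? = some v) (hu : u ∈ S) (hv : v ∈ S)
    (h : cnt (τ.take i) S = cnt (τ.take j) S) : i = j := by
  have key : ∀ {i j : ℕ} {u : Fin n}, τ[i]? = some u → u ∈ S → i < j →
      cnt (τ.take i) S < cnt (τ.take j) S := by
    intro i j u hi hu hij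
    have h1 := cnt_take_succ τ S i u hi
    rw [if_pos hu] at h1
    have h2 := cnt_mono τ S (show i + 1 ≤ j from hij)
    omega
  rcases lt_trichotomy i j with h1 | h1 | h1
  · have := key hi hu h1
    omega
  · exact h1
  · have := key hj hv h1
    omega

open Classical in
/-- the chunks of a variable -/
noncomputable def chs (v : Fin n) : Finset ℕ :=
  (Finset.range τ.length).image (chunk τ M S) |>.filter fun j => ∃ i, τ[i]? = some v ∧ chunk τ M S i = j

theorem mem_chs (v : Fin n) (j : ℕ) : j ∈ chs τ M S v ↔ ∃ i : ℕ, τ[i]? = some v ∧ chunk τ M S i = j := by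
  classical
  unfold chs
  rw [Finset.mem_filter, Finset.mem_image]
  constructor
  · exact fun h => h.2
  · rintro ⟨i, h1, h2⟩
    refine ⟨⟨i, ?_, h2⟩, i, h1, h2⟩
    rw [Finset.mem_range]
    exact (List.getElem?_eq_some_iff.1 h1).1

theorem card_chs_le (v : Fin n) : (chs τ M S v).card ≤ τ.count v := by
  classical
  have h1 : ((Finset.range τ.length).filter fun i => τ[i]? = some v).card = τ.count v := by
    induction τ using List.reverseRecOn with
    | nil => simp
    | append_singleton l a ih =>
      rw [List.length_append, List.length_singleton, Finset.range_add_one, Finset.filter_insert, List.count_append]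
      have h2 : ((Finset.range l.length).filter fun i => (l ++ [a])[i]? = some v) =
          ((Finset.range l.length).filter fun i => l[i]? = some v) := by
        refine Finset.filter_congr fun i hi => ?_
        rw [List.getElem?_append_left (Finset.mem_range.1 hi)]
      have h3 : (l ++ [a])[l.length]? = some a := by simp
      rw [h2, h3, List.count_singleton]
      by_cases hav : a = v
      · subst hav
        rw [if_pos rfl, Finset.card_insert_of_notMem (by simp), ih]
        simp
      · rw [if_neg (by simpa using hav), ih]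
        simp [hav]
  rw [← h1]
  have h2 : chs τ M S v ⊆ ((Finset.range τ.length).filter fun i => τ[i]? = some v).image (chunk τ M S) := by
    intro j hj
    obtain ⟨i, h3, h4⟩ := (mem_chs τ M S v j).1 hj
    rw [Finset.mem_image]
    exact ⟨i, Finset.mem_filter.2 ⟨Finset.mem_range.2 (List.getElem?_eq_some_iff.1 h3).1, h3⟩, h4⟩
  exact (Finset.card_le_card h2).trans Finset.card_image_le

theorem chs_lt (hM : 1 ≤ M) (v : Fin n) (j : ℕ) (h : j ∈ chs τ M S v) : j < M := by
  obtain ⟨i, -, rfl⟩ := (mem_chs τ M S v j).1 h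
  exact chunk_lt τ M S hM i

/-- few variables in each chunk -/
theorem card_in_chunk (j : ℕ) :
    (S.toFinset.filter fun v => j ∈ chs τ M S v).card ≤ cnt τ S / M + 1 := by
  classical
  set q := cnt τ S / M + 1 with hq
  have h : ∀ v : Fin n, ∃ a : ℕ, (v ∈ S → j ∈ chs τ M S v → ∃ i : ℕ, τ[i]? = some v ∧ a = cnt (τ.take i) S ∧
      chunk τ M S i = j) := by
    intro v
    by_cases hv : v ∈ S ∧ j ∈ chs τ M S v
    · obtain ⟨i, h1, h2⟩ := (mem_chs τ M S v j).1 hv.2
      exact ⟨cnt (τ.take i) S, fun _ _ => ⟨i, h1, rfl, h2⟩⟩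
    · exact ⟨0, fun h1 h2 => absurd ⟨h1, h2⟩ hv⟩
  choose a ha using h
  have hq0 : 0 < q := Nat.succ_pos _
  have h1 : (Finset.Ico (j * q) (j * q + q)).card = q := by
    rw [Nat.card_Ico, Nat.add_sub_cancel_left]
  rw [← h1]
  refine Finset.card_le_card_of_injOn a ?_ ?_
  · intro v hv
    obtain ⟨h2, h3⟩ := Finset.mem_filter.1 (Finset.mem_coe.1 hv)
    obtain ⟨i, h4, h5, h6⟩ := ha v (List.mem_toFinset.1 h2) h3
    rw [Finset.mem_coe, Finset.mem_Ico, h5]
    unfold chunk at h6
    rw [← hq] at h6
    have h7 := Nat.div_add_mod (cnt (τ.take i) S) q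
    have h8 := Nat.mod_lt (cnt (τ.take i) S) hq0
    rw [h6] at h7
    rw [mul_comm q j] at h7
    omega
  · intro u hu v hv huv
    obtain ⟨h2, h3⟩ := Finset.mem_filter.1 (Finset.mem_coe.1 hu)
    obtain ⟨h2', h3'⟩ := Finset.mem_filter.1 (Finset.mem_coe.1 hv)
    obtain ⟨i, h4, h5, h6⟩ := ha u (List.mem_toFinset.1 h2) h3
    obtain ⟨i', h4', h5', h6'⟩ := ha v (List.mem_toFinset.1 h2') h3'
    have h9 := place_inj τ S h4 h4' (List.mem_toFinset.1 h2) (List.mem_toFinset.1 h2') (by rw [← h5, ← h5', huv])
    subst h9
    rw [h4] at h4'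
    exact Option.some_injective _ h4'

theorem cnt_le {k : ℕ} (hS : S.Nodup) (hk : ∀ v ∈ S, τ.count v ≤ k) : cnt τ S ≤ k * S.length := by
  classical
  have h1 : cnt τ S = ∑ v ∈ S.toFinset, τ.count v := by
    unfold cnt
    induction τ with
    | nil => simp
    | cons a l ih =>
      rw [List.countP_cons, ih (fun v hv => (List.count_le_count_cons).trans (hk v hv))]
      have h2 : ∀ v ∈ S.toFinset, (a :: l).count v = l.count v + if a = v then 1 else 0 := by
        intro v _
        rw [List.count_cons]
        simp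
      rw [Finset.sum_congr rfl h2, Finset.sum_add_distrib, Finset.sum_ite_eq]
      simp
  rw [h1]
  calc ∑ v ∈ S.toFinset, τ.count v ≤ ∑ _v ∈ S.toFinset, k :=
        Finset.sum_le_sum fun v hv => hk v (List.mem_toFinset.1 hv)
    _ = k * S.length := by
        rw [Finset.sum_const, smul_eq_mul, List.toFinset_card_of_nodup hS, mul_comm]

/-- colourings with prescribed values on disjoint sets -/
theorem card_colourings (A B : Finset ℕ) (hA : A ⊆ Finset.range M) (hB : B ⊆ Finset.range M) (hAB : Disjoint A B) :
    2 ^ M ≤ 2 ^ (A.card + B.card) *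
      ((Finset.range M).powerset.filter fun C => A ⊆ C ∧ Disjoint B C).card := by
  classical
  have h1 : 2 ^ (M - (A.card + B.card)) ≤
      ((Finset.range M).powerset.filter fun C => A ⊆ C ∧ Disjoint B C).card := by
    have h2 : ((Finset.range M) \ (A ∪ B)).card = M - (A.card + B.card) := by
      rw [Finset.card_sdiff_of_subset (Finset.union_subset hA hB), Finset.card_range,
        Finset.card_union_of_disjoint hAB]
    rw [← h2, ← Finset.card_powerset]
    refine Finset.card_le_card_of_injOn (fun D => D ∪ A) ?_ ?_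
    · intro D hD
      rw [Finset.mem_coe, Finset.mem_powerset] at hD
      rw [Finset.mem_coe, Finset.mem_filter, Finset.mem_powerset]
      refine ⟨Finset.union_subset (hD.trans Finset.sdiff_subset) hA, Finset.subset_union_right, ?_⟩
      rw [Finset.disjoint_union_right]
      refine ⟨?_, hAB.symm⟩
      rw [Finset.disjoint_left]
      intro x hx hx2
      have := (Finset.mem_sdiff.1 (hD hx2)).2
      exact this (Finset.mem_union_right _ hx)
    · intro D hD D' hD' h
      rw [Finset.mem_coe, Finset.mem_powerset] at hD hD'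
      have key : ∀ D : Finset ℕ, D ⊆ (Finset.range M) \ (A ∪ B) → (D ∪ A) \ A = D := by
        intro D hD
        ext x
        rw [Finset.mem_sdiff, Finset.mem_union]
        constructor
        · rintro ⟨h1 | h1, h2⟩
          · exact h1
          · exact absurd h1 h2
        · intro h1
          exact ⟨Or.inl h1, fun h2 => (Finset.mem_sdiff.1 (hD h1)).2 (Finset.mem_union_left _ h2)⟩
      have h' : D ∪ A = D' ∪ A := h
      rw [← key D hD, ← key D' hD', h']
  have h3 : A.card + B.card ≤ M := by
    rw [← Finset.card_union_of_disjoint hAB]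
    calc (A ∪ B).card ≤ (Finset.range M).card := Finset.card_le_card (Finset.union_subset hA hB)
      _ = M := Finset.card_range M
  calc 2 ^ M = 2 ^ (A.card + B.card) * 2 ^ (M - (A.card + B.card)) := by
        rw [← pow_add]
        congr 1
        omega
    _ ≤ _ := Nat.mul_le_mul_left _ h1

open Classical in
/-- the pairs of variables with disjoint sets of chunks -/
noncomputable def dj : Finset (Fin n × Fin n) :=
  (S.toFinset ×ˢ S.toFinset).filter fun x => Disjoint (chs τ M S x.1) (chs τ M S x.2)

/-- most pairs are disjoint -/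
theorem card_dj {k : ℕ} (hM : 1 ≤ M) (hS : S.Nodup) (hk : ∀ v ∈ S, τ.count v ≤ k) (hk1 : 1 ≤ k)
    (hN : M ≤ S.length) : (M - 2 * k ^ 2) * S.length ^ 2 ≤ M * (dj τ M S).card := by
  classical
  set N := S.length with hNd
  have hcard : S.toFinset.card = N := List.toFinset_card_of_nodup hS
  -- the pairs which are not disjoint
  set nd := (S.toFinset ×ˢ S.toFinset).filter fun x => ¬ Disjoint (chs τ M S x.1) (chs τ M S x.2) with hnd
  have h1 : (dj τ M S).card + nd.card = N ^ 2 := by
    have := Finset.card_filter_add_card_filter_not (s := S.toFinset ×ˢ S.toFinset)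
      (fun x => Disjoint (chs τ M S x.1) (chs τ M S x.2))
    rw [Finset.card_product, hcard] at this
    rw [sq, ← this]
    rfl
  have h2 : nd.card ≤ ∑ j ∈ Finset.range M, (S.toFinset.filter fun v => j ∈ chs τ M S v).card ^ 2 := by
    have h3 : nd ⊆ (Finset.range M).biUnion fun j =>
        (S.toFinset.filter fun v => j ∈ chs τ M S v) ×ˢ (S.toFinset.filter fun v => j ∈ chs τ M S v) := by
      intro x hx
      obtain ⟨hx1, hx2⟩ := Finset.mem_filter.1 hx
      rw [Finset.mem_product] at hx1
      rw [Finset.not_disjoint_iff] at hx2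
      obtain ⟨j, hj1, hj2⟩ := hx2
      rw [Finset.mem_biUnion]
      refine ⟨j, Finset.mem_range.2 (chs_lt τ M S hM _ _ hj1), ?_⟩
      rw [Finset.mem_product, Finset.mem_filter, Finset.mem_filter]
      exact ⟨⟨hx1.1, hj1⟩, hx1.2, hj2⟩
    refine (Finset.card_le_card h3).trans (Finset.card_biUnion_le.trans (Finset.sum_le_sum fun j _ => ?_))
    rw [Finset.card_product, sq]
  have h4 : ∑ j ∈ Finset.range M, (S.toFinset.filter fun v => j ∈ chs τ M S v).card ≤ k * N := by
    calc ∑ j ∈ Finset.range M, (S.toFinset.filter fun v => j ∈ chs τ M S v).card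
        = ∑ j ∈ Finset.range M, ∑ v ∈ S.toFinset, if j ∈ chs τ M S v then 1 else 0 := by
          refine Finset.sum_congr rfl fun j _ => ?_
          rw [Finset.card_filter]
      _ = ∑ v ∈ S.toFinset, ∑ j ∈ Finset.range M, if j ∈ chs τ M S v then 1 else 0 := Finset.sum_comm
      _ ≤ ∑ v ∈ S.toFinset, k := by
          refine Finset.sum_le_sum fun v hv => ?_
          rw [← Finset.card_filter]
          refine (Finset.card_le_card (t := chs τ M S v) ?_).trans
            ((card_chs_le τ M S v).trans (hk v (List.mem_toFinset.1 hv)))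
          intro j hj
          exact (Finset.mem_filter.1 hj).2
      _ = k * N := by rw [Finset.sum_const, smul_eq_mul, hcard, mul_comm]
  set q := cnt τ S / M + 1 with hq
  have h5 : nd.card ≤ q * (k * N) := by
    refine h2.trans ?_
    calc ∑ j ∈ Finset.range M, (S.toFinset.filter fun v => j ∈ chs τ M S v).card ^ 2
        ≤ ∑ j ∈ Finset.range M, q * (S.toFinset.filter fun v => j ∈ chs τ M S v).card := by
          refine Finset.sum_le_sum fun j _ => ?_
          rw [sq]
          exact Nat.mul_le_mul_right _ (card_in_chunk τ M S j)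
      _ = q * ∑ j ∈ Finset.range M, (S.toFinset.filter fun v => j ∈ chs τ M S v).card := by
          rw [Finset.mul_sum]
      _ ≤ q * (k * N) := Nat.mul_le_mul_left _ h4
  have h6 : q * M ≤ 2 * k * N := by
    have h7 := cnt_le τ S hS hk
    have h8 : cnt τ S / M * M ≤ cnt τ S := Nat.div_mul_le_self _ _
    have h9 : N ≤ k * N := Nat.le_mul_of_pos_left _ hk1
    rw [hq, add_mul, one_mul]
    calc cnt τ S / M * M + M ≤ k * N + k * N := by
          rw [← hNd] at h7
          omega
      _ = 2 * k * N := by ring
  have h10 : M * nd.card ≤ 2 * k ^ 2 * N ^ 2 := by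
    calc M * nd.card ≤ M * (q * (k * N)) := Nat.mul_le_mul_left _ h5
      _ = q * M * (k * N) := by ring
      _ ≤ 2 * k * N * (k * N) := Nat.mul_le_mul_right _ h6
      _ = 2 * k ^ 2 * N ^ 2 := by ring
  have h11 : M * N ^ 2 = M * (dj τ M S).card + M * nd.card := by rw [← h1]; ring
  rw [Nat.sub_mul]
  omega

theorem mem_part (m : ℕ) (b : Bool) (v : Fin n) : v ∈ part τ M S m b ↔
    v ∈ S ∧ ∀ j ∈ chs τ M S v, Nat.testBit m j = b := by
  classical
  unfold part
  rw [List.mem_filter, decide_eq_true_iff]
  refine and_congr_right fun _ => ?_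
  constructor
  · intro h j hj
    obtain ⟨i, h1, h2⟩ := (mem_chs τ M S v j).1 hj
    rw [← h2]
    exact h i (List.mem_range.2 (List.getElem?_eq_some_iff.1 h1).1) h1
  · intro h i _ hi
    exact h _ ((mem_chs τ M S v _).2 ⟨i, hi, rfl⟩)

theorem part_nodup (hS : S.Nodup) (m : ℕ) (b : Bool) : (part τ M S m b).Nodup := by
  classical
  unfold part
  exact hS.filter _

theorem card_part (hS : S.Nodup) (m : ℕ) (b : Bool) : (part τ M S m b).length =
    (S.toFinset.filter fun v => ∀ j ∈ chs τ M S v, Nat.testBit m j = b).card := by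
  classical
  rw [← List.toFinset_card_of_nodup (part_nodup τ M S hS m b)]
  congr 1
  ext v
  rw [List.mem_toFinset, mem_part, Finset.mem_filter, List.mem_toFinset]

/-- the existence of the division -/
theorem exists_mask {k : ℕ} (hM : 1 ≤ M) (hS : S.Nodup) (hk : ∀ v ∈ S, τ.count v ≤ k) (hk1 : 1 ≤ k)
    (hN : M ≤ S.length) : ∃ m < 2 ^ M, (M - 2 * k ^ 2) * S.length ^ 2 ≤
      4 ^ k * M * ((part τ M S m true).length * (part τ M S m false).length) := by
  classical
  -- colourings as subsets `C` of the set of chunks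
  let a : Finset ℕ → ℕ := fun C => (S.toFinset.filter fun v => chs τ M S v ⊆ C).card
  let b : Finset ℕ → ℕ := fun C => (S.toFinset.filter fun v => Disjoint (chs τ M S v) C).card
  have h1 : 2 ^ M * (dj τ M S).card ≤ 4 ^ k * ∑ C ∈ (Finset.range M).powerset, a C * b C := by
    have h2 : ∀ C, a C * b C = ∑ x ∈ S.toFinset ×ˢ S.toFinset,
        if chs τ M S x.1 ⊆ C ∧ Disjoint (chs τ M S x.2) C then 1 else 0 := by
      intro C
      simp only [a, b]
      rw [← Finset.card_product, ← Finset.filter_product, Finset.card_filter]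
    calc 2 ^ M * (dj τ M S).card = ∑ _x ∈ dj τ M S, 2 ^ M := by
          rw [Finset.sum_const, smul_eq_mul, mul_comm]
      _ ≤ ∑ x ∈ dj τ M S, 4 ^ k * ((Finset.range M).powerset.filter fun C =>
            chs τ M S x.1 ⊆ C ∧ Disjoint (chs τ M S x.2) C).card := by
          refine Finset.sum_le_sum fun x hx => ?_
          obtain ⟨hx1, hx2⟩ := Finset.mem_filter.1 hx
          rw [Finset.mem_product, List.mem_toFinset, List.mem_toFinset] at hx1
          have hA : chs τ M S x.1 ⊆ Finset.range M := fun j hj =>
            Finset.mem_range.2 (chs_lt τ M S hM _ _ hj)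
          have hB : chs τ M S x.2 ⊆ Finset.range M := fun j hj =>
            Finset.mem_range.2 (chs_lt τ M S hM _ _ hj)
          refine (card_colourings M _ _ hA hB hx2).trans (Nat.mul_le_mul_right _ ?_)
          have h3 := (card_chs_le τ M S x.1).trans (hk _ hx1.1)
          have h4 := (card_chs_le τ M S x.2).trans (hk _ hx1.2)
          have h5 : (4 : ℕ) ^ k = 2 ^ (k + k) := by
            rw [show (4 : ℕ) = 2 ^ 2 by norm_num, ← pow_mul]
            congr 1
            ring
          rw [h5]
          exact Nat.pow_le_pow_right (by norm_num) (by omega)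
      _ ≤ ∑ x ∈ S.toFinset ×ˢ S.toFinset, 4 ^ k * ((Finset.range M).powerset.filter fun C =>
            chs τ M S x.1 ⊆ C ∧ Disjoint (chs τ M S x.2) C).card :=
          Finset.sum_le_sum_of_subset (Finset.filter_subset _ _)
      _ = 4 ^ k * ∑ C ∈ (Finset.range M).powerset, a C * b C := by
          rw [← Finset.mul_sum]
          congr 1
          rw [Finset.sum_congr rfl fun C _ => h2 C, Finset.sum_comm]
          refine Finset.sum_congr rfl fun x _ => ?_
          rw [Finset.card_filter]
  have h6 : ∃ C ∈ (Finset.range M).powerset, (dj τ M S).card ≤ 4 ^ k * (a C * b C) := by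
    by_contra hcon
    push Not at hcon
    have h7 : ∑ C ∈ (Finset.range M).powerset, 4 ^ k * (a C * b C) <
        ∑ _C ∈ (Finset.range M).powerset, (dj τ M S).card :=
      Finset.sum_lt_sum_of_nonempty ⟨∅, Finset.empty_mem_powerset _⟩ hcon
    rw [Finset.sum_const, smul_eq_mul, Finset.card_powerset, Finset.card_range, ← Finset.mul_sum] at h7
    omega
  obtain ⟨C, -, hC⟩ := h6
  refine ⟨Nat.ofBits fun i : Fin M => decide (i.1 ∈ C), Nat.ofBits_lt_two_pow _, ?_⟩
  have h8 : ∀ v, ∀ j ∈ chs τ M S v, Nat.testBit (Nat.ofBits fun i : Fin M => decide (i.1 ∈ C)) j = decide (j ∈ C) := by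
    intro v j hj
    rw [Nat.testBit_ofBits_lt _ _ (chs_lt τ M S hM _ _ hj)]
  have h9 : (part τ M S (Nat.ofBits fun i : Fin M => decide (i.1 ∈ C)) true).length = a C := by
    rw [card_part τ M S hS]
    simp only [a]
    congr 1
    refine Finset.filter_congr fun v _ => ?_
    constructor
    · intro h j hj
      have := h j hj
      rw [h8 v j hj, decide_eq_true_iff] at this
      exact this
    · intro h j hj
      rw [h8 v j hj, decide_eq_true_iff]
      exact h hj
  have h10 : (part τ M S (Nat.ofBits fun i : Fin M => decide (i.1 ∈ C)) false).length = b C := by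
    rw [card_part τ M S hS]
    simp only [b]
    congr 1
    refine Finset.filter_congr fun v _ => ?_
    constructor
    · intro h
      rw [Finset.disjoint_left]
      intro j hj
      have := h j hj
      rw [h8 v j hj, decide_eq_false_iff_not] at this
      exact this
    · intro h j hj
      rw [h8 v j hj, decide_eq_false_iff_not]
      exact Finset.disjoint_left.1 h hj
  rw [h9, h10]
  calc (M - 2 * k ^ 2) * S.length ^ 2 ≤ M * (dj τ M S).card := card_dj τ M S hM hS hk hk1 hN
    _ ≤ M * (4 ^ k * (a C * b C)) := Nat.mul_le_mul_left _ hC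
    _ = 4 ^ k * M * (a C * b C) := by ring

theorem mask_spec {k : ℕ} (hM : 1 ≤ M) (hS : S.Nodup) (hk : ∀ v ∈ S, τ.count v ≤ k) (hk1 : 1 ≤ k)
    (hN : M ≤ S.length) : (M - 2 * k ^ 2) * S.length ^ 2 ≤
      4 ^ k * M * ((part τ M S (mask τ k M S) true).length * (part τ M S (mask τ k M S) false).length) := by
  obtain ⟨m, hm, h⟩ := exists_mask τ M S hM hS hk hk1 hN
  have h1 : ((List.range (2 ^ M)).find? fun m => decide ((M - 2 * k ^ 2) * S.length ^ 2 ≤
      4 ^ k * M * ((part τ M S m true).length * (part τ M S m false).length))).isSome := by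
    rw [List.find?_isSome]
    exact ⟨m, List.mem_range.2 hm, by simpa using h⟩
  obtain ⟨m', hm'⟩ := Option.isSome_iff_exists.1 h1
  have h2 := List.find?_some hm'
  rw [decide_eq_true_iff] at h2
  unfold mask
  rw [hm']
  exact h2

end

end Pool.Agent.V8H74.RK
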