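import Mathlib

/-!
# Layouts of the variables of a reading word

`τ` is a list of variables, the order in which an oblivious program reads its variables. All definitions are
computable.
-/

set_option autoImplicit false

namespace Pool.Agent.V8H74.RK

/-- The number of places of the list `τ` with an element of `S`. -/
def cnt {n : ℕ} (τ S : List (Fin n)) : ℕ := τ.countP fun v => decide (v ∈ S)

/-- The places of `τ` with elements of `S` are cut, in order, into at most `M` chunks of length
`cnt τ S / M + 1`; this is the number of the chunk of the place `i`. -/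
def chunk {n : ℕ} (τ : List (Fin n)) (M : ℕ) (S : List (Fin n)) (i : ℕ) : ℕ :=
  cnt (τ.take i) S / (cnt τ S / M + 1)

/-- The elements of `S` which only occur in chunks `j` for which the `j`-th binary digit of `m` is `b`. -/
def part {n : ℕ} (τ : List (Fin n)) (M : ℕ) (S : List (Fin n)) (m : ℕ) (b : Bool) : List (Fin n) :=
  S.filter fun v => decide (∀ i ∈ List.range τ.length, τ[i]? = some v → Nat.testBit m (chunk τ M S i) = b)

/-- The least number `m < 2 ^ M` with `(M - 2 k ^ 2) |S| ^ 2 ≤ 4 ^ k M |S_1| |S_0|`, where `S_b = part τ M S m b`. -/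
def mask {n : ℕ} (τ : List (Fin n)) (k M : ℕ) (S : List (Fin n)) : ℕ :=
  ((List.range (2 ^ M)).find? fun m => decide ((M - 2 * k ^ 2) * S.length ^ 2 ≤
    4 ^ k * M * ((part τ M S m true).length * (part τ M S m false).length))).getD 0

/-- A list of elements of `S` which is crossed few times by `τ`, by recursion: the elements of `S` are divided by
`mask`, both parts are shortened to at most `(3 / 4) ^ k |S| + 1` elements. -/
def layout {n : ℕ} (τ : List (Fin n)) (k M : ℕ) : ℕ → List (Fin n) → List (Fin n)
  | 0, S => S.take 1
  | D + 1, S =>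
    if S.length ≤ 4 ^ k * M then S.take 1
    else layout τ k M D ((part τ M S (mask τ k M S) true).take (3 ^ k * S.length / 4 ^ k + 1)) ++
      layout τ k M D ((part τ M S (mask τ k M S) false).take (3 ^ k * S.length / 4 ^ k + 1))

/-- Layouts are removed from `S` until nothing remains. -/
def blocks {n : ℕ} (τ : List (Fin n)) (k M D : ℕ) : ℕ → List (Fin n) → List (List (Fin n))
  | 0, _ => []
  | j + 1, S =>
    if S = [] then []
    else layout τ k M D S :: blocks τ k M D j (S.filter fun v => decide (v ∉ layout τ k M D S))

/-- `Λ = ⌊log₂ n⌋ + 1` -/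
def lam (n : ℕ) : ℕ := Nat.log 2 n + 1

/-- the depth of the layouts -/
def depth (n k : ℕ) : ℕ := 6 * lam n / k + 1

/-- the number of chunks -/
def chunks (n k : ℕ) : ℕ := 4 * k ^ 2 * depth n k

end Pool.Agent.V8H74.RK
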