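import Mathlib

/-!
# The generator of a block

`gen W l r y`, `r < 2 ^ l`: the value of the variable at place `r` of a block, from the seed `y`.
-/

set_option autoImplicit false

namespace Pool.Agent.V8H74.RK

open MvPolynomial

/-- The value of the variable at place `r < 2 ^ l` of a block from the seed `y`: the seed `y` of a block of length
`2 ^ (l + 1)` gives the seeds `y ^ W` and `y ^ W + y ^ (W - 1)` of its two halves. -/
def gen {R : Type*} [CommSemiring R] (W : ℕ) : ℕ → ℕ → R → R
  | 0, _, y => y
  | l + 1, r, y => gen W l (r % 2 ^ l) (y ^ W + ((r / 2 ^ l : ℕ) : R) * y ^ (W - 1))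

theorem map_gen {R R' F : Type*} [CommSemiring R] [CommSemiring R'] [FunLike F R R'] [RingHomClass F R R'] (φ : F)
    (W l r : ℕ) (y : R) : φ (gen W l r y) = gen W l r (φ y) := by
  induction l generalizing r y with
  | zero => rfl
  | succ l ih =>
    rw [gen, ih, gen]
    simp

/-- `g` does not depend on the variables in `T` -/
def Indep {σ K : Type*} [Field K] (T : Set σ) (g : MvPolynomial σ K) : Prop :=
  ∀ v v' : σ → K, (∀ i, i ∉ T → v i = v' i) → eval v g = eval v' g

/-- `f` is a sum of at most `N` products of a polynomial which does not depend on the variables in `B` and one which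
does not depend on the variables in `A` -/
def Sp {σ K : Type*} [Field K] (A B : Set σ) (N : ℕ) (f : MvPolynomial σ K) : Prop :=
  ∃ (ι : Type) (_ : Fintype ι) (g h : ι → MvPolynomial σ K), Fintype.card ι ≤ N ∧ f = ∑ r, g r * h r ∧
    (∀ r, Indep B (g r)) ∧ ∀ r, Indep A (h r)

section

variable {K : Type*} [Field K]

/-- The bivariate lemma. -/
def Biv (K : Type*) [Field K] : Prop := ∀ (W : ℕ), 1 ≤ W → ∀ (G H : Fin W → Polynomial K) (x0 y0 : K),
  ∑ r, (G r).eval x0 * (H r).eval y0 ≠ 0 → ∃ t : K, ∑ r, (G r).eval (t ^ W) * (H r).eval (t ^ W + t ^ (W - 1)) ≠ 0

theorem biv_ft (hb : Biv K) {W : ℕ} (hW : 1 ≤ W) {ι : Type} [Fintype ι] (hι : Fintype.card ι ≤ W)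
    (G H : ι → Polynomial K) (x0 y0 : K) (h : ∑ r, (G r).eval x0 * (H r).eval y0 ≠ 0) :
    ∃ t : K, ∑ r, (G r).eval (t ^ W) * (H r).eval (t ^ W + t ^ (W - 1)) ≠ 0 := by
  classical
  let e := Fintype.equivFin ι
  let G' : Fin W → Polynomial K := fun r => if h : r.1 < Fintype.card ι then G (e.symm ⟨r.1, h⟩) else 0
  let H' : Fin W → Polynomial K := fun r => if h : r.1 < Fintype.card ι then H (e.symm ⟨r.1, h⟩) else 0
  have key : ∀ x y : K, ∑ r, (G' r).eval x * (H' r).eval y = ∑ r, (G r).eval x * (H r).eval y := by
    intro x y
    rw [← e.symm.sum_comp]
    have h1 : ∑ r : Fin (Fintype.card ι), (G (e.symm r)).eval x * (H (e.symm r)).eval y =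
        ∑ r : Fin (Fintype.card ι), (G' (Fin.castLE hι r)).eval x * (H' (Fin.castLE hι r)).eval y := by
      refine Finset.sum_congr rfl fun r _ => ?_
      simp [G', H']
    rw [h1]
    have h2 := Finset.sum_map Finset.univ (Fin.castLEEmb hι) (fun r => (G' r).eval x * (H' r).eval y)
    refine Eq.trans ?_ h2
    symm
    refine Finset.sum_subset (Finset.subset_univ _) ?_
    intro r _ hr
    have : ¬ r.1 < Fintype.card ι := by
      intro h
      apply hr
      rw [Finset.mem_map]
      exact ⟨⟨r.1, h⟩, Finset.mem_univ _, rfl⟩
    simp [G', this]
  obtain ⟨t, ht⟩ := hb W hW G' H' x0 y0 (by rw [key]; exact h)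
  exact ⟨t, by rw [← key]; exact ht⟩

variable {σ : Type*} (S : Set σ) (pos : σ → ℕ) (v : σ → K) (W : ℕ)

open Classical in
/-- the point at level `m` -/
noncomputable def val {R : Type*} [CommSemiring R] (m : ℕ) (t : ℕ → R) (v : σ → R) (i : σ) : R :=
  if i ∈ S then gen W m (pos i % 2 ^ m) (t (pos i / 2 ^ m)) else v i

theorem block_step (hb : Biv K) (hW : 1 ≤ W) (f : MvPolynomial σ K) (hinj : Set.InjOn pos S) (L : ℕ)
    (hcut : ∀ c, Sp {i | i ∈ S ∧ pos i < c} {i | i ∈ S ∧ c ≤ pos i} W f) (hpos : ∀ i ∈ S, pos i < 2 ^ L)
    (hv : eval v f ≠ 0) :
    ∃ t : K, eval (val S pos W L (fun _ => t) v) f ≠ 0 := by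
  classical
  have key : ∀ m, ∃ t : ℕ → K, eval (val S pos W m t v) f ≠ 0 := by
    intro m
    induction m with
    | zero =>
      refine ⟨fun j => if h : ∃ i ∈ S, pos i = j then v h.choose else 0, ?_⟩
      have : val S pos W 0 (fun j => if h : ∃ i ∈ S, pos i = j then v h.choose else 0) v = v := by
        funext i
        unfold val
        split_ifs with hi
        · rw [gen, pow_zero, Nat.div_one]
          have h : ∃ i' ∈ S, pos i' = pos i := ⟨i, hi, rfl⟩
          beta_reduce
          rw [dif_pos h]
          congr 1
          exact hinj h.choose_spec.1 hi h.choose_spec.2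
        · rfl
      rw [this]
      exact hv
    | succ m ih =>
      have H : ∀ j, ∃ t : ℕ → K, (∀ i < j, ∃ u, t (2 * i) = u ^ W ∧ t (2 * i + 1) = u ^ W + u ^ (W - 1)) ∧
          eval (val S pos W m t v) f ≠ 0 := by
        intro j
        induction j with
        | zero =>
          obtain ⟨t, ht⟩ := ih
          exact ⟨t, fun i hi => absurd hi (by omega), ht⟩
        | succ j ihj =>
          obtain ⟨t, ht1, ht2⟩ := ihj
          obtain ⟨ι, _, g, h, hcard, hf, hg, hh⟩ := hcut ((2 * j + 1) * 2 ^ m)
          -- the two univariate families
          let tx : ℕ → Polynomial K := Function.update (fun a => Polynomial.C (t a)) (2 * j) Polynomial.X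
          let ty : ℕ → Polynomial K := Function.update (fun a => Polynomial.C (t a)) (2 * j + 1) Polynomial.X
          let vc : σ → Polynomial K := fun i => Polynomial.C (v i)
          let G : ι → Polynomial K := fun r => MvPolynomial.aeval (val S pos W m tx vc) (g r)
          let Hh : ι → Polynomial K := fun r => MvPolynomial.aeval (val S pos W m ty vc) (h r)
          have evG : ∀ (tt : ℕ → Polynomial K) (x : K) (q : MvPolynomial σ K),
              (MvPolynomial.aeval (val S pos W m tt vc) q).eval x =
                eval (val S pos W m (fun a => (tt a).eval x) v) q := by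
            intro tt x q
            have h1 : (Polynomial.evalRingHom x).comp (MvPolynomial.aeval (val S pos W m tt vc)).toRingHom =
                MvPolynomial.eval (val S pos W m (fun a => (tt a).eval x) v) := by
              apply MvPolynomial.ringHom_ext
              · intro a
                simp
              · intro i
                simp only [AlgHom.toRingHom_eq_coe, RingHom.coe_comp, RingHom.coe_coe, Function.comp_apply,
                  aeval_X, eval_X, val]
                split_ifs with hi
                · rw [map_gen]
                  rfl
                · simp [vc]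
            exact congrArg (fun φ : MvPolynomial σ K →+* K => φ q) h1
          -- the values on the pair
          have hF : ∀ x y : K, ∑ r, (G r).eval x * (Hh r).eval y =
              eval (val S pos W m (Function.update (Function.update t (2 * j) x) (2 * j + 1) y) v) f := by
            intro x y
            rw [hf, map_sum]
            refine Finset.sum_congr rfl fun r _ => ?_
            rw [map_mul]
            congr 1
            · simp only [G]
              rw [evG]
              apply hg
              intro i hi
              unfold val
              split_ifs with hiS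
              · congr 1
                have h2 : pos i / 2 ^ m ≠ 2 * j + 1 := by
                  intro h0
                  apply hi
                  refine ⟨hiS, ?_⟩
                  rw [← h0]
                  exact Nat.div_mul_le_self _ _
                rw [Function.update_of_ne h2]
                by_cases h3 : pos i / 2 ^ m = 2 * j
                · rw [h3, Function.update_self]
                  simp [tx]
                · rw [Function.update_of_ne h3]
                  simp [tx, Function.update_of_ne h3]
              · rfl
            · simp only [Hh]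
              rw [evG]
              apply hh
              intro i hi
              unfold val
              split_ifs with hiS
              · congr 1
                by_cases h2 : pos i / 2 ^ m = 2 * j + 1
                · rw [h2, Function.update_self]
                  simp [ty]
                · rw [Function.update_of_ne h2]
                  have h3 : pos i / 2 ^ m ≠ 2 * j := by
                    intro h0
                    apply hi
                    refine ⟨hiS, ?_⟩
                    have := Nat.lt_mul_div_succ (pos i) (pow_pos (show 0 < 2 by norm_num) m)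
                    rw [h0] at this
                    rw [mul_comm]
                    exact this
                  rw [Function.update_of_ne h3]
                  simp [ty, Function.update_of_ne h2]
              · rfl
          have h0 : ∑ r, (G r).eval (t (2 * j)) * (Hh r).eval (t (2 * j + 1)) ≠ 0 := by
            rw [hF]
            rw [Function.update_eq_self, Function.update_eq_self]
            exact ht2
          obtain ⟨u, hu⟩ := biv_ft hb hW hcard G Hh _ _ h0
          rw [hF] at hu
          refine ⟨_, ?_, hu⟩
          intro i hi
          rcases Nat.lt_succ_iff_lt_or_eq.1 hi with hi | rfl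
          · obtain ⟨u', h1, h2⟩ := ht1 i hi
            refine ⟨u', ?_, ?_⟩
            · rw [Function.update_of_ne (by omega), Function.update_of_ne (by omega), h1]
            · rw [Function.update_of_ne (by omega), Function.update_of_ne (by omega), h2]
          · refine ⟨u, ?_, ?_⟩
            · rw [Function.update_of_ne (by omega), Function.update_self]
            · rw [Function.update_self]
      obtain ⟨t, ht1, ht2⟩ := H (2 ^ L)
      refine ⟨fun i => if h : i < 2 ^ L then (ht1 i h).choose else 0, ?_⟩
      have : val S pos W (m + 1) (fun i => if h : i < 2 ^ L then (ht1 i h).choose else 0) v = val S pos W m t v := by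
        funext i
        unfold val
        split_ifs with hi
        · have h1 : pos i / 2 ^ (m + 1) < 2 ^ L := (Nat.div_le_self _ _).trans_lt (hpos i hi)
          have h2 := (ht1 _ h1).choose_spec
          rw [gen]
          beta_reduce
          rw [dif_pos h1]
          have h3 : pos i % 2 ^ (m + 1) % 2 ^ m = pos i % 2 ^ m :=
            Nat.mod_mod_of_dvd _ (pow_dvd_pow 2 (Nat.le_succ m))
          have h4 : pos i % 2 ^ (m + 1) / 2 ^ m = pos i / 2 ^ m % 2 := by
            rw [pow_succ, Nat.mod_mul_right_div_self]
          have h5 : pos i / 2 ^ (m + 1) = pos i / 2 ^ m / 2 := by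
            rw [pow_succ, Nat.div_div_eq_div_mul]
          rw [h3, h4]
          congr 1
          rcases Nat.mod_two_eq_zero_or_one (pos i / 2 ^ m) with h6 | h6
          · have h7 : pos i / 2 ^ m = 2 * (pos i / 2 ^ (m + 1)) := by omega
            rw [h6, Nat.cast_zero, zero_mul, add_zero]
            conv_rhs => rw [h7]
            exact h2.1.symm
          · have h7 : pos i / 2 ^ m = 2 * (pos i / 2 ^ (m + 1)) + 1 := by omega
            rw [h6, Nat.cast_one, one_mul]
            conv_rhs => rw [h7]
            exact h2.2.symm
        · rfl
      rw [this]
      exact ht2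
  obtain ⟨t, ht⟩ := key L
  refine ⟨t 0, ?_⟩
  have : val S pos W L (fun _ => t 0) v = val S pos W L t v := by
    funext i
    unfold val
    split_ifs with hi
    · rw [Nat.div_eq_of_lt (hpos i hi)]
    · rfl
  rw [this]
  exact ht

end

end Pool.Agent.V8H74.RK
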