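import Pool.Agent.V8H74.RK.Gen

/-!
# Oblivious programs and cuts
-/

set_option autoImplicit false

namespace Pool.Agent.V8H74.RK

open MvPolynomial

/-- An oblivious branching program of width `w` in the variables `x_0, …, x_(n-1)`: the list of its layers, a
variable and a matrix of univariate polynomials for each layer. -/
abbrev Prog (K : Type) [Field K] (n w : ℕ) : Type := List (Fin n × Matrix (Fin w) (Fin w) (Polynomial K))

/-- The product of the matrices `A(x_i)` over the layers `(i, A)` of the program. -/
noncomputable def progMatrix {K : Type} [Field K] {n w : ℕ} (P : Prog K n w) :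
    Matrix (Fin w) (Fin w) (MvPolynomial (Fin n) K) :=
  (P.map fun s => s.2.map (Polynomial.aeval (X s.1))).prod

/-- The list `τ` is cut into `R` segments, each of which avoids `A` or avoids `B`. -/
def Runs {n : ℕ} (τ : List (Fin n)) (A B : Set (Fin n)) (R : ℕ) : Prop :=
  ∃ c : ℕ → ℕ, Monotone c ∧ (∀ i, c i < R) ∧ ∀ s, (∀ i v, τ[i]? = some v → c i = s → v ∉ A) ∨
    (∀ i v, τ[i]? = some v → c i = s → v ∉ B)

section

variable {K : Type} [Field K] {n w : ℕ}

theorem Indep.mul {σ : Type*} {T : Set σ} {f g : MvPolynomial σ K} (hf : Indep T f) (hg : Indep T g) :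
    Indep T (f * g) := by
  intro v v' h
  rw [map_mul, map_mul, hf v v' h, hg v v' h]

theorem Indep.sum {σ : Type*} {T : Set σ} {ι : Type*} (s : Finset ι) (f : ι → MvPolynomial σ K)
    (hf : ∀ i ∈ s, Indep T (f i)) : Indep T (∑ i ∈ s, f i) := by
  intro v v' h
  rw [map_sum, map_sum]
  exact Finset.sum_congr rfl fun i hi => hf i hi v v' h

theorem Indep.one {σ : Type*} {T : Set σ} : Indep T (1 : MvPolynomial σ K) := by
  intro v v' _
  rw [map_one, map_one]

theorem Indep.zero {σ : Type*} {T : Set σ} : Indep T (0 : MvPolynomial σ K) := by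
  intro v v' _
  rw [map_zero, map_zero]

theorem Indep.C {σ : Type*} {T : Set σ} (a : K) : Indep T (C a : MvPolynomial σ K) := by
  intro v v' _
  rw [eval_C, eval_C]

theorem indep_prog (T : Set (Fin n)) (P : Prog K n w) (h : ∀ s ∈ P, s.1 ∉ T) (p q : Fin w) :
    Indep T (progMatrix P p q) := by
  induction P generalizing p q with
  | nil =>
    simp only [progMatrix, List.map_nil, List.prod_nil, Matrix.one_apply]
    split_ifs
    · exact Indep.one
    · exact Indep.zero
  | cons s P ih =>
    have hprod : progMatrix (s :: P) = s.2.map (Polynomial.aeval (X s.1)) * progMatrix P := by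
      simp only [progMatrix, List.map_cons, List.prod_cons]
    rw [hprod, Matrix.mul_apply]
    refine Indep.sum _ _ fun x _ => ?_
    refine Indep.mul ?_ (ih (fun t ht => h t (List.mem_cons_of_mem _ ht)) x q)
    intro v v' hv
    rw [Matrix.map_apply]
    have e : ∀ u : Fin n → K, eval u (Polynomial.aeval (X s.1 : MvPolynomial (Fin n) K) (s.2 p x)) =
        (s.2 p x).eval (u s.1) := by
      intro u
      rw [Polynomial.aeval_def, Polynomial.hom_eval₂]
      have : (eval u).comp (algebraMap K (MvPolynomial (Fin n) K)) = RingHom.id K := by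
        ext a
        simp
      rw [this, eval_X]
      rfl
    rw [e, e, hv _ (h s List.mem_cons_self)]

theorem Sp.mono {σ : Type*} {A B : Set σ} {N N' : ℕ} {f : MvPolynomial σ K} (h : Sp A B N f) (hN : N ≤ N') :
    Sp A B N' f := by
  obtain ⟨ι, i1, g, h1, h2, h3⟩ := h
  exact ⟨ι, i1, g, h1, h2.trans hN, h3⟩

theorem Sp.sum {σ : Type*} {A B : Set σ} {N : ℕ} {κ : Type} [Fintype κ] (f : κ → MvPolynomial σ K)
    (h : ∀ x, Sp A B N (f x)) : Sp A B (Fintype.card κ * N) (∑ x, f x) := by
  choose ι i1 g h1 h2 h3 h4 h5 using h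
  refine ⟨Σ x, ι x, inferInstance, fun r => g r.1 r.2, fun r => h1 r.1 r.2, ?_, ?_, fun r => h4 r.1 r.2,
    fun r => h5 r.1 r.2⟩
  · rw [Fintype.card_sigma]
    calc ∑ x, Fintype.card (ι x) ≤ ∑ _x : κ, N := Finset.sum_le_sum fun x _ => h2 x
      _ = Fintype.card κ * N := by simp
  · rw [Fintype.sum_sigma]
    exact Finset.sum_congr rfl fun x _ => h3 x

theorem Sp.mul_left {σ : Type*} {A B : Set σ} {N : ℕ} {a f : MvPolynomial σ K}
    (ha : Indep A a ∨ Indep B a) (h : Sp A B N f) : Sp A B N (a * f) := by
  obtain ⟨ι, i1, g, h1, h2, h3, h4, h5⟩ := h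
  rcases ha with ha | ha
  · refine ⟨ι, i1, g, fun r => a * h1 r, h2, ?_, h4, fun r => ha.mul (h5 r)⟩
    rw [h3, Finset.mul_sum]
    exact Finset.sum_congr rfl fun r _ => by ring
  · refine ⟨ι, i1, fun r => a * g r, h1, h2, ?_, fun r => ha.mul (h4 r), h5⟩
    rw [h3, Finset.mul_sum]
    exact Finset.sum_congr rfl fun r _ => by ring

theorem Sp.one {σ : Type*} {A B : Set σ} : Sp A B 1 (1 : MvPolynomial σ K) :=
  ⟨Unit, inferInstance, fun _ => 1, fun _ => 1, by simp, by simp, fun _ => Indep.one, fun _ => Indep.one⟩

theorem Sp.of_indep {σ : Type*} {A B : Set σ} {a : MvPolynomial σ K} (ha : Indep A a ∨ Indep B a) :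
    Sp A B 1 a := by
  have := Sp.mul_left ha (Sp.one (A := A) (B := B))
  rwa [mul_one] at this

theorem progMatrix_append (P P' : Prog K n w) : progMatrix (P ++ P') = progMatrix P * progMatrix P' := by
  simp only [progMatrix, List.map_append, List.prod_append]

theorem sp_prog (A B : Set (Fin n)) (R : ℕ) : ∀ (P : Prog K n w), Runs (P.map Prod.fst) A B R → ∀ p q : Fin w,
    Sp A B (w ^ R) (progMatrix P p q) := by
  induction R with
  | zero =>
    rintro P ⟨c, -, hc, -⟩
    exact absurd (hc 0) (by omega)
  | succ R ih =>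
    intro P hP p q
    have hw : 0 < w := p.pos
    obtain ⟨c, hmono, hc, hs⟩ := hP
    by_cases hex : ∃ i, 1 ≤ c i
    · classical
      set j := Nat.find hex with hj
      have hj1 : ∀ i, j ≤ i → 1 ≤ c i := fun i hi => (Nat.find_spec hex).trans (hmono hi)
      have hj0 : ∀ i < j, c i = 0 := fun i hi => by
        have := Nat.find_min hex hi
        omega
      have e : progMatrix P = progMatrix (P.take j) * progMatrix (P.drop j) := by
        rw [← progMatrix_append, List.take_append_drop]
      have h1 : ∀ x, Indep A (progMatrix (P.take j) p x) ∨ Indep B (progMatrix (P.take j) p x) := by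
        intro x
        have hmem : ∀ s ∈ P.take j, ∃ i < j, (P.map Prod.fst)[i]? = some s.1 := by
          intro s hs'
          obtain ⟨i, hi, h2⟩ := List.mem_take_iff_getElem.1 hs'
          refine ⟨i, by omega, ?_⟩
          rw [List.getElem?_map, List.getElem?_eq_getElem (by omega), h2]
          rfl
        rcases hs 0 with h0 | h0
        · left
          refine indep_prog A _ (fun s hs' => ?_) p x
          obtain ⟨i, hi, h2⟩ := hmem s hs'
          exact h0 i s.1 h2 (hj0 i hi)
        · right
          refine indep_prog B _ (fun s hs' => ?_) p x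
          obtain ⟨i, hi, h2⟩ := hmem s hs'
          exact h0 i s.1 h2 (hj0 i hi)
      have h2 : Runs ((P.drop j).map Prod.fst) A B R := by
        refine ⟨fun i => c (j + i) - 1, fun i i' hi => Nat.sub_le_sub_right (hmono (by omega)) 1, fun i => ?_, fun s => ?_⟩
        · have h3 := hc (j + i)
          have h4 := hj1 (j + i) (by omega)
          change c (j + i) - 1 < R
          omega
        · have key : ∀ i v, ((P.drop j).map Prod.fst)[i]? = some v → c (j + i) - 1 = s →
              (P.map Prod.fst)[j + i]? = some v ∧ c (j + i) = s + 1 := by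
            intro i v hv hcs
            rw [List.map_drop, List.getElem?_drop] at hv
            have := hj1 (j + i) (by omega)
            exact ⟨hv, by omega⟩
          rcases hs (s + 1) with h0 | h0
          · left
            intro i v hv hcs
            obtain ⟨h3, h4⟩ := key i v hv hcs
            exact h0 _ _ h3 h4
          · right
            intro i v hv hcs
            obtain ⟨h3, h4⟩ := key i v hv hcs
            exact h0 _ _ h3 h4
      rw [e, Matrix.mul_apply, pow_succ, mul_comm]
      have h3 := Sp.sum (A := A) (B := B) (N := w ^ R)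
        (fun x => progMatrix (P.take j) p x * progMatrix (P.drop j) x q)
        (fun x => Sp.mul_left (h1 x) (ih _ h2 x q))
      rwa [Fintype.card_fin] at h3
    · have h0 : ∀ i, c i = 0 := fun i => by
        by_contra h
        exact hex ⟨i, by omega⟩
      refine (Sp.of_indep ?_).mono (Nat.one_le_pow _ _ hw)
      have hmem : ∀ s ∈ P, ∃ i : ℕ, (P.map Prod.fst)[i]? = some s.1 := by
        intro s hs'
        obtain ⟨i, hi, h2⟩ := List.mem_iff_getElem.1 hs'
        refine ⟨i, ?_⟩
        rw [List.getElem?_map, List.getElem?_eq_getElem hi, h2]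
        rfl
      rcases hs 0 with h1 | h1
      · left
        refine indep_prog A _ (fun s hs' => ?_) p q
        obtain ⟨i, h2⟩ := hmem s hs'
        exact h1 i s.1 h2 (h0 i)
      · right
        refine indep_prog B _ (fun s hs' => ?_) p q
        obtain ⟨i, h2⟩ := hmem s hs'
        exact h1 i s.1 h2 (h0 i)

/-- linear combinations of the entries -/
theorem sp_span (A B : Set (Fin n)) (R : ℕ) (P : Prog K n w) (h : Runs (P.map Prod.fst) A B R)
    (c : Fin w × Fin w → K) : Sp A B (w ^ (R + 2)) (∑ p, C (c p) * progMatrix P p.1 p.2) := by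
  have h3 := Sp.sum (A := A) (B := B) (N := w ^ R) (fun p : Fin w × Fin w => C (c p) * progMatrix P p.1 p.2)
    (fun p => Sp.mul_left (Or.inl (Indep.C _)) (sp_prog A B R P h p.1 p.2))
  refine h3.mono (le_of_eq ?_)
  rw [Fintype.card_prod, Fintype.card_fin]
  ring

end

end Pool.Agent.V8H74.RK
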