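import Pool.Agent.V8H74.RK.Count
import Pool.Agent.V8H74.RK.Prog

/-!
# Layouts: few crossings, large size
-/

set_option autoImplicit false

namespace Pool.Agent.V8H74.RK

section

variable {n : ℕ} {τ : List (Fin n)}

theorem Runs.symm {A B : Set (Fin n)} {R : ℕ} (h : Runs τ A B R) : Runs τ B A R := by
  obtain ⟨c, h1, h2, h3⟩ := h
  exact ⟨c, h1, h2, fun s => (h3 s).symm⟩

theorem Runs.mono {A B A' B' : Set (Fin n)} {R R' : ℕ} (h : Runs τ A B R) (hA : A' ⊆ A) (hB : B' ⊆ B)
    (hR : R ≤ R') : Runs τ A' B' R' := by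
  obtain ⟨c, h1, h2, h3⟩ := h
  refine ⟨c, h1, fun i => (h2 i).trans_le hR, fun s => ?_⟩
  rcases h3 s with h | h
  · exact Or.inl fun i v hi hc hv => h i v hi hc (hA hv)
  · exact Or.inr fun i v hi hc hv => h i v hi hc (hB hv)

theorem Runs.add {A B A' B' : Set (Fin n)} {R M : ℕ} (h : Runs τ A B R) (h' : Runs τ A' B' M) (hA : A ⊆ A') :
    Runs τ A (B ∪ B') (R + M) := by
  classical
  obtain ⟨c, h1, h2, h3⟩ := h
  obtain ⟨c', h1', h2', h3'⟩ := h'
  refine ⟨fun i => c i + c' i, fun i j hij => Nat.add_le_add (h1 hij) (h1' hij), fun i =>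
    Nat.add_lt_add (h2 i) (h2' i), fun s => ?_⟩
  by_cases hex : ∃ i0, c i0 + c' i0 = s
  · obtain ⟨i0, h0⟩ := hex
    have key : ∀ i, c i + c' i = s → c i = c i0 ∧ c' i = c' i0 := by
      intro i hi
      rcases le_total i i0 with h | h
      · have := h1 h
        have := h1' h
        omega
      · have := h1 h
        have := h1' h
        omega
    rcases h3 (c i0) with ha | hb
    · exact Or.inl fun i v hi hc => ha i v hi (key i hc).1
    · rcases h3' (c' i0) with ha' | hb'
      · exact Or.inl fun i v hi hc hv => ha' i v hi (key i hc).2 (hA hv)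
      · refine Or.inr fun i v hi hc hv => ?_
        rcases hv with hv | hv
        · exact hb i v hi (key i hc).1 hv
        · exact hb' i v hi (key i hc).2 hv
  · exact Or.inl fun i v _ hc => absurd ⟨i, hc⟩ hex

theorem runs_part (M : ℕ) (hM : 1 ≤ M) (S : List (Fin n)) (m : ℕ) :
    Runs τ {v | v ∈ part τ M S m true} {v | v ∈ part τ M S m false} M := by
  refine ⟨chunk τ M S, chunk_mono τ M S, chunk_lt τ M S hM, fun s => ?_⟩
  cases hb : Nat.testBit m s with
  | false =>
    left
    intro i v hi hc hv
    have h1 := ((mem_part τ M S m true v).1 hv).2 s ((mem_chs τ M S v s).2 ⟨i, hi, hc⟩)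
    rw [hb] at h1
    exact absurd h1 (by simp)
  | true =>
    right
    intro i v hi hc hv
    have h1 := ((mem_part τ M S m false v).1 hv).2 s ((mem_chs τ M S v s).2 ⟨i, hi, hc⟩)
    rw [hb] at h1
    exact absurd h1 (by simp)

theorem part_disjoint (M : ℕ) (S : List (Fin n)) (m : ℕ) (hr : ∀ v ∈ S, 1 ≤ τ.count v) (v : Fin n)
    (h1 : v ∈ part τ M S m true) (h2 : v ∈ part τ M S m false) : False := by
  rw [mem_part] at h1 h2
  have h3 : v ∈ τ := List.count_pos_iff.1 (hr v h1.1)
  obtain ⟨i, hi, h4⟩ := List.mem_iff_getElem.1 h3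
  have h5 : chunk τ M S i ∈ chs τ M S v := (mem_chs τ M S v _).2 ⟨i, by rw [List.getElem?_eq_getElem hi, h4], rfl⟩
  have h6 := h1.2 _ h5
  have h7 := h2.2 _ h5
  rw [h6] at h7
  exact absurd h7 (by simp)

variable (τ)

theorem layout_subset (k M D : ℕ) (S : List (Fin n)) : ∀ v ∈ layout τ k M D S, v ∈ S := by
  induction D generalizing S with
  | zero =>
    intro v hv
    exact List.mem_of_mem_take hv
  | succ D ih =>
    intro v hv
    rw [layout] at hv
    split_ifs at hv
    · exact List.mem_of_mem_take hv
    · rw [List.mem_append] at hv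
      rcases hv with hv | hv
      · exact ((mem_part τ M S _ true v).1 (List.mem_of_mem_take (ih _ v hv))).1
      · exact ((mem_part τ M S _ false v).1 (List.mem_of_mem_take (ih _ v hv))).1

theorem layout_nodup (k M D : ℕ) (S : List (Fin n)) (hS : S.Nodup) (hr : ∀ v ∈ S, 1 ≤ τ.count v) :
    (layout τ k M D S).Nodup := by
  induction D generalizing S with
  | zero => exact hS.sublist (List.take_sublist _ _)
  | succ D ih =>
    rw [layout]
    split_ifs
    · exact hS.sublist (List.take_sublist _ _)
    · refine List.Nodup.append (ih _ ((part_nodup τ M S hS _ _).sublist (List.take_sublist _ _)) ?_)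
        (ih _ ((part_nodup τ M S hS _ _).sublist (List.take_sublist _ _)) ?_) ?_
      · exact fun v hv => hr v ((mem_part τ M S _ _ v).1 (List.mem_of_mem_take hv)).1
      · exact fun v hv => hr v ((mem_part τ M S _ _ v).1 (List.mem_of_mem_take hv)).1
      · intro v h1 h2
        exact part_disjoint M S _ hr v (List.mem_of_mem_take (layout_subset τ k M D _ v h1))
          (List.mem_of_mem_take (layout_subset τ k M D _ v h2))

theorem runs_take_one (S α β : List (Fin n)) (R : ℕ) (hR : 1 ≤ R) (h : S.take 1 = α ++ β) :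
    Runs τ {v | v ∈ α} {v | v ∈ β} R := by
  refine ⟨fun _ => 0, monotone_const, fun _ => hR, fun s => ?_⟩
  have h1 : (α ++ β).length ≤ 1 := by
    rw [← h]
    exact List.length_take_le _ _
  rw [List.length_append] at h1
  rcases Nat.eq_zero_or_pos α.length with h2 | h2
  · left
    intro i v _ _ hv
    rw [List.length_eq_zero_iff] at h2
    subst h2
    simp at hv
  · right
    intro i v _ _ hv
    have h3 : β.length = 0 := by omega
    rw [List.length_eq_zero_iff] at h3
    subst h3
    simp at hv

theorem layout_runs (k M : ℕ) (hM : 1 ≤ M) (D : ℕ) (S : List (Fin n)) : ∀ α β, layout τ k M D S = α ++ β →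
    Runs τ {v | v ∈ α} {v | v ∈ β} (M * D + 1) := by
  induction D generalizing S with
  | zero =>
    intro α β h
    exact runs_take_one τ S α β _ (by omega) h
  | succ D ih =>
    intro α β h
    rw [layout] at h
    split_ifs at h
    · exact runs_take_one τ S α β _ (by omega) h
    · set S1 := (part τ M S (mask τ k M S) true).take (3 ^ k * S.length / 4 ^ k + 1) with hS1
      set S0 := (part τ M S (mask τ k M S) false).take (3 ^ k * S.length / 4 ^ k + 1) with hS0
      have hp := runs_part (τ := τ) M hM S (mask τ k M S)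
      have hs1 : {v | v ∈ layout τ k M D S1} ⊆ {v | v ∈ part τ M S (mask τ k M S) true} := fun v hv =>
        List.mem_of_mem_take (layout_subset τ k M D _ v hv)
      have hs0 : {v | v ∈ layout τ k M D S0} ⊆ {v | v ∈ part τ M S (mask τ k M S) false} := fun v hv =>
        List.mem_of_mem_take (layout_subset τ k M D _ v hv)
      rcases List.append_eq_append_iff.1 h with ⟨γ, h1, h2⟩ | ⟨γ, h1, h2⟩
      · -- `α = layout S1 ++ γ`, `layout S0 = γ ++ β`
        have h3 := ((ih S0 γ β h2).symm.add hp.symm (fun v hv => hs0 (by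
          rw [Set.mem_ofPred_eq, h2, List.mem_append]
          exact Or.inr hv))).symm
        refine h3.mono ?_ (le_refl _) (by rw [Nat.mul_succ]; omega)
        intro v hv
        rw [Set.mem_ofPred_eq, h1, List.mem_append] at hv
        rcases hv with hv | hv
        · exact Or.inr (hs1 hv)
        · exact Or.inl hv
      · -- `layout S1 = α ++ γ`, `β = γ ++ layout S0`
        have h3 := (ih S1 α γ h1).add hp (fun v hv => hs1 (by
          rw [Set.mem_ofPred_eq, h1, List.mem_append]
          exact Or.inl hv))
        refine h3.mono (le_refl _) ?_ (by rw [Nat.mul_succ]; omega)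
        intro v hv
        rw [Set.mem_ofPred_eq, h2, List.mem_append] at hv
        rcases hv with hv | hv
        · exact Or.inl hv
        · exact Or.inr (hs0 hv)

end

end Pool.Agent.V8H74.RK
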