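import Pool.Agent.V8H74.RK.Bound

/-!
# Programs of linear length
-/

set_option autoImplicit false

namespace Pool.Agent.V8H74.RK

theorem log_le_lam (n : ℕ) : Real.log n ≤ lam n := by
  rcases Nat.eq_zero_or_pos n with rfl | hn
  · simp
  have h1 : (n : ℝ) ≤ 2 ^ lam n := by exact_mod_cast (lt_pow_lam n).le
  have h2 := Real.log_le_log (by exact_mod_cast hn) h1
  rw [Real.log_pow] at h2
  have h3 : Real.log 2 ≤ 1 := by
    have := Real.log_two_lt_d9
    linarith
  calc Real.log n ≤ lam n * Real.log 2 := h2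
    _ ≤ lam n * 1 := mul_le_mul_of_nonneg_left h3 (Nat.cast_nonneg _)
    _ = lam n := mul_one _

theorem lam_le_log (n : ℕ) (h : 2 ≤ Real.log n) : (lam n : ℝ) ≤ 2 * Real.log n := by
  have hn : n ≠ 0 := by
    rintro rfl
    simp at h
    linarith
  have h1 : (2 : ℝ) ^ Nat.log 2 n ≤ n := by exact_mod_cast Nat.pow_log_le_self 2 hn
  have h2 := Real.log_le_log (by positivity) h1
  rw [Real.log_pow] at h2
  have h3 : (2 : ℝ) / 3 ≤ Real.log 2 := by
    have := Real.log_two_gt_d9
    linarith
  have h4 : (Nat.log 2 n : ℝ) * (2 / 3) ≤ Nat.log 2 n * Real.log 2 := mul_le_mul_of_nonneg_left h3 (Nat.cast_nonneg _)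
  unfold lam
  push_cast
  linarith

theorem linear_length (A : ℕ) : ∀ᶠ n : ℕ in Filter.atTop, ∀ (w e : ℕ) (τ : List (Fin n)), 1 ≤ w →
    Real.log (2 * w * (e + 1)) ≤ Real.log n ^ A → ∃ k, 2 ≤ k ∧ k ≤ lam n ∧
      Real.log ((hittingSet τ k w e).card : ℝ) ≤
        (A + 6) * (Real.log (Real.log n) / Real.log n) * τ.length * Real.log (e + 1) + n / Real.log n := by
  have h1 : ∀ᶠ L : ℝ in Filter.atTop, 2 * (A + 6) * Real.log L ≤ L := by
    have h2 := Real.isLittleO_log_id_atTop.bound (show (0 : ℝ) < 1 / (2 * (A + 6)) by positivity)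
    filter_upwards [h2, Filter.eventually_ge_atTop (1 : ℝ)] with L h3 h4
    rw [Real.norm_of_nonneg (Real.log_nonneg h4), id, Real.norm_of_nonneg (by linarith)] at h3
    calc 2 * (A + 6) * Real.log L ≤ 2 * (A + 6) * (1 / (2 * (A + 6)) * L) :=
          mul_le_mul_of_nonneg_left h3 (by positivity)
      _ = L := by field_simp
  have h2 : Filter.Tendsto (fun n : ℕ => Real.log n) Filter.atTop Filter.atTop :=
    Real.tendsto_log_atTop.comp tendsto_natCast_atTop_atTop
  filter_upwards [h2.eventually h1, h2.eventually (Filter.eventually_ge_atTop (281600 : ℝ)),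
    Filter.eventually_ge_atTop 1] with n h3 h4 hn w e τ hw hwe
  set L := Real.log n with hL
  set x := Real.log L with hx
  have hL0 : 0 < L := by linarith
  have hx1 : 1 ≤ x := by
    rw [hx, Real.le_log_iff_exp_le hL0]
    have := Real.exp_one_lt_d9
    linarith
  have hA : (0 : ℝ) < A + 6 := by positivity
  have hq : 2 ≤ L / ((A + 6) * x) := by
    rw [le_div_iff₀ (by positivity)]
    linarith
  refine ⟨⌊L / ((A + 6) * x)⌋₊, Nat.le_floor (by exact_mod_cast hq), ?_, ?_⟩
  · have h5 : ((⌊L / ((A + 6) * x)⌋₊ : ℕ) : ℝ) ≤ lam n := by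
      refine (Nat.floor_le (by positivity)).trans (le_trans ?_ (log_le_lam n))
      rw [div_le_iff₀ (by positivity)]
      have : (1 : ℝ) ≤ (A + 6) * x := by
        have : (0 : ℝ) ≤ A := Nat.cast_nonneg A
        nlinarith
      nlinarith
    exact_mod_cast h5
  set k := ⌊L / ((A + 6) * x)⌋₊ with hk
  have hk2 : 2 ≤ k := Nat.le_floor (by exact_mod_cast hq)
  have hkl : k ≤ lam n := by
    have h5 : (k : ℝ) ≤ lam n := by
      refine (Nat.floor_le (by positivity)).trans (le_trans ?_ (log_le_lam n))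
      rw [div_le_iff₀ (by positivity)]
      have : (1 : ℝ) ≤ (A + 6) * x := by
        have : (0 : ℝ) ≤ A := Nat.cast_nonneg A
        nlinarith
      nlinarith
    exact_mod_cast h5
  have hkR : (2 : ℝ) ≤ k := by exact_mod_cast hk2
  have hkle : (k : ℝ) ≤ L / ((A + 6) * x) := Nat.floor_le (by positivity)
  have hklt : L / ((A + 6) * x) < k + 1 := Nat.lt_floor_add_one _
  have h5 := log_card τ k w e hk2 hkl hw
  refine h5.trans (add_le_add ?_ ?_)
  · have he : (0 : ℝ) ≤ Real.log (e + 1) := Real.log_nonneg (by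
      have : (0 : ℝ) ≤ e := Nat.cast_nonneg e
      linarith)
    refine mul_le_mul_of_nonneg_right ?_ he
    have h6 : ((Finset.univ.filter fun v => k < τ.count v).card : ℝ) * (k + 1) ≤ τ.length := by
      exact_mod_cast heavy_card τ k
    have h7 : ((Finset.univ.filter fun v => k < τ.count v).card : ℝ) ≤ τ.length / (k + 1) := by
      rw [le_div_iff₀ (by positivity)]
      exact h6
    refine h7.trans ?_
    rw [div_le_iff₀ (by positivity)]
    have h8 : 1 ≤ (A + 6) * (x / L) * (k + 1) := by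
      rw [div_lt_iff₀ (by positivity)] at hklt
      have : (A + 6) * (x / L) * (k + 1) = ((k + 1) * ((A + 6) * x)) / L := by
        field_simp
      rw [this, le_div_iff₀ hL0, one_mul]
      exact hklt.le
    calc (τ.length : ℝ) = 1 * τ.length := (one_mul _).symm
      _ ≤ (A + 6) * (x / L) * (k + 1) * τ.length := mul_le_mul_of_nonneg_right h8 (Nat.cast_nonneg _)
      _ = _ := by ring
  · have hn0 : (0 : ℝ) < n := by exact_mod_cast hn
    have h6 : (n : ℝ) ^ (1 - 1 / k : ℝ) ≤ n * (L ^ (A + 6))⁻¹ := by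
      have h7 : (n : ℝ) ^ (1 - 1 / k : ℝ) = n * Real.exp (-(L / k)) := by
        rw [sub_eq_add_neg, Real.rpow_add hn0, Real.rpow_one, Real.rpow_def_of_pos hn0, ← hL]
        congr 2
        ring
      rw [h7]
      refine mul_le_mul_of_nonneg_left ?_ hn0.le
      have h8 : ((A : ℝ) + 6) * x ≤ L / k := by
        rw [le_div_iff₀ (by positivity)]
        rw [le_div_iff₀ (by positivity)] at hkle
        linarith
      calc Real.exp (-(L / k)) ≤ Real.exp (-((A + 6) * x)) := Real.exp_le_exp.2 (by linarith)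
        _ = (L ^ (A + 6))⁻¹ := by
            rw [Real.exp_neg]
            congr 1
            have h9 : ((A : ℝ) + 6) * x = ((A + 6 : ℕ) : ℝ) * x := by push_cast; ring
            rw [h9, mul_comm, Real.exp_mul, hx, Real.exp_log hL0, Real.rpow_natCast]
    have h7 : (lam n : ℝ) ^ 4 ≤ 16 * L ^ 4 := by
      calc (lam n : ℝ) ^ 4 ≤ (2 * L) ^ 4 := pow_le_pow_left₀ (Nat.cast_nonneg _) (lam_le_log n (by linarith)) 4
        _ = 16 * L ^ 4 := by ring
    have h8 : 0 ≤ Real.log (2 * w * (e + 1)) := by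
      apply Real.log_nonneg
      have hwR : (1 : ℝ) ≤ w := by exact_mod_cast hw
      have : (0 : ℝ) ≤ e := Nat.cast_nonneg e
      nlinarith
    calc 17600 * (lam n : ℝ) ^ 4 * (n : ℝ) ^ (1 - 1 / k : ℝ) * Real.log (2 * w * (e + 1)) ≤
          17600 * (16 * L ^ 4) * (n * (L ^ (A + 6))⁻¹) * L ^ A := by
          gcongr
      _ = 281600 * n / L ^ 2 := by
          rw [pow_add]
          field_simp
          ring
      _ ≤ n / L := by
          rw [div_le_div_iff₀ (by positivity) hL0]
          have : 281600 * (n * L) ≤ L * (n * L) := mul_le_mul_of_nonneg_right h4 (by positivity)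
          calc 281600 * (n : ℝ) * L = 281600 * (n * L) := by ring
            _ ≤ L * (n * L) := this
            _ = n * L ^ 2 := by ring

end Pool.Agent.V8H74.RK
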