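import Pool.Agent.V8H74.RK.Blocks
import Pool.Agent.V8H74.RK.Prog
import Pool.Agent.V8H61.RK.Biv

/-!
# The hitting set
-/

set_option autoImplicit false

namespace Pool.Agent.V8H74.RK

open MvPolynomial

/-- The point `a` with the values of the variables in `ℓ` replaced by the values which the seed `y` generates. -/
def fill {n : ℕ} (W : ℕ) (ℓ : List (Fin n)) (y : ℕ) (a : Fin n → ℕ) : Fin n → ℕ :=
  fun v => if v ∈ ℓ then gen W (lam n) (ℓ.idxOf v) y else a v

/-- The blocks of the variables which `τ` reads at most `k` times. -/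
def lightBlocks {n : ℕ} (τ : List (Fin n)) (k : ℕ) : List (List (Fin n)) :=
  blocks τ k (chunks n k) (depth n k) n
    ((List.finRange n).filter fun v => decide (1 ≤ τ.count v ∧ τ.count v ≤ k))

/-- `w ^ (M D + 3)` with the number `M` of chunks and the depth `D`. -/
def seg (n k w : ℕ) : ℕ := w ^ (chunks n k * depth n k + 3)

/-- The hitting set. -/
def hittingSet {n : ℕ} (τ : List (Fin n)) (k w e : ℕ) : Finset (Fin n → ℕ) :=
  (lightBlocks τ k).foldr
    (fun ℓ H => Finset.image₂ (fill (seg n k w) ℓ) (Finset.range (n * e * seg n k w ^ lam n + 1)) H)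
    (Fintype.piFinset fun v => if k < τ.count v then Finset.range (e + 1) else {0})

theorem natDegree_gen {R : Type*} [CommSemiring R] (W : ℕ) (hW : 1 ≤ W) (l r : ℕ) (q : Polynomial R) :
    (gen W l r q).natDegree ≤ W ^ l * q.natDegree := by
  induction l generalizing r q with
  | zero => simp [gen]
  | succ l ih =>
    rw [gen]
    refine (ih _ _).trans ?_
    rw [pow_succ, mul_assoc]
    refine Nat.mul_le_mul_left _ ?_
    refine (Polynomial.natDegree_add_le _ _).trans (max_le Polynomial.natDegree_pow_le ?_)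
    refine (Polynomial.natDegree_mul_le).trans ?_
    rw [Polynomial.natDegree_natCast, zero_add]
    exact Polynomial.natDegree_pow_le.trans (Nat.mul_le_mul_right _ (by omega))

theorem totalDegree_le {K : Type} [Field K] {n : ℕ} (f : MvPolynomial (Fin n) K) (e : ℕ)
    (he : ∀ i, f.degreeOf i ≤ e) : f.totalDegree ≤ n * e := by
  rw [totalDegree]
  refine Finset.sup_le fun m hm => ?_
  have h1 : (m.sum fun _ a => a) = ∑ i, m i := Finsupp.sum_fintype _ _ fun _ => rfl
  rw [h1]
  calc ∑ i, m i ≤ ∑ _i : Fin n, e := Finset.sum_le_sum fun i _ => (monomial_le_degreeOf i hm).trans (he i)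
    _ = n * e := by simp

/-- a nonzero univariate polynomial over a field of characteristic 0 does not vanish at some small natural number -/
theorem exists_nat {K : Type} [Field K] [CharZero K] (q : Polynomial K) (hq : q ≠ 0) (B : ℕ) (hB : q.natDegree ≤ B) :
    ∃ y < B + 1, q.eval (y : K) ≠ 0 := by
  by_contra hcon
  push Not at hcon
  apply hq
  refine Polynomial.eq_zero_of_natDegree_lt_card_of_eval_eq_zero q (ι := Fin (B + 1)) (f := fun i => ((i : ℕ) : K))
    (fun i j hij => Fin.ext (Nat.cast_injective (R := K) hij)) (fun i => hcon i i.2) ?_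
  rw [Fintype.card_fin]
  omega

section

variable {K : Type} [Field K] [CharZero K] {n w : ℕ}

/-- one block -/
theorem fill_step (P : Prog K n w) (c : Fin w × Fin w → K) (k e : ℕ) (hk : 2 ≤ k)
    (S : List (Fin n)) (hS : S.Nodup) (hr : ∀ v ∈ S, 1 ≤ (P.map Prod.fst).count v) (ℓ : List (Fin n))
    (hℓ : ℓ = layout (P.map Prod.fst) k (chunks n k) (depth n k) S)
    (f : MvPolynomial (Fin n) K) (hf : f = ∑ p, C (c p) * progMatrix P p.1 p.2) (he : ∀ i, f.degreeOf i ≤ e)
    (v : Fin n → K) (hv : eval v f ≠ 0) :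
    ∃ y < n * e * seg n k w ^ lam n + 1,
      eval (fun i => if i ∈ ℓ then ((gen (seg n k w) (lam n) (ℓ.idxOf i) y : ℕ) : K) else v i) f ≠ 0 := by
  classical
  have hw : 1 ≤ w := by
    by_contra h0
    have h1 : w = 0 := by omega
    subst h1
    apply hv
    rw [hf, Finset.univ_eq_empty, Finset.sum_empty, map_zero]
  have hW : 1 ≤ seg n k w := Nat.one_le_pow _ _ hw
  have hM : 1 ≤ chunks n k := by
    unfold chunks depth
    exact Nat.succ_le_of_lt (by positivity)
  have hnd : ℓ.Nodup := by
    rw [hℓ]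
    exact layout_nodup _ _ _ _ _ hS hr
  have hlen : ℓ.length ≤ n := by
    have := hnd.length_le_card
    rwa [Fintype.card_fin] at this
  have hpos : ∀ i ∈ {i | i ∈ ℓ}, ℓ.idxOf i < 2 ^ lam n := fun i hi =>
    (List.idxOf_lt_length_iff.2 hi).trans_le (hlen.trans (lt_pow_lam n).le)
  obtain ⟨t, ht⟩ := block_step {i | i ∈ ℓ} (fun i => ℓ.idxOf i) v (seg n k w)
    (fun W hW G H x0 y0 h => Pool.Agent.V8H61.RK.biv W hW G H x0 y0 h) hW f
    (fun i hi j hj hij => (List.idxOf_inj hi).1 hij) (lam n) (fun j => by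
      rw [hf]
      have h1 := layout_runs (P.map Prod.fst) k (chunks n k) hM (depth n k) S (ℓ.take j) (ℓ.drop j) (by
        rw [List.take_append_drop, hℓ])
      have h2 := sp_span {i | i ∈ {i | i ∈ ℓ} ∧ ℓ.idxOf i < j} {i | i ∈ {i | i ∈ ℓ} ∧ j ≤ ℓ.idxOf i}
        (chunks n k * depth n k + 1) P (h1.mono (fun i hi => by
          obtain ⟨h3, h4⟩ := hi
          have h5 := List.idxOf_lt_length_iff.2 h3
          have h6 : ℓ[ℓ.idxOf i] = i := List.getElem_idxOf h5
          exact List.mem_take_iff_getElem.2 ⟨ℓ.idxOf i, by omega, h6⟩) (fun i hi => by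
          obtain ⟨h3, h4⟩ := hi
          have h5 := List.idxOf_lt_length_iff.2 h3
          have h6 : ℓ[ℓ.idxOf i] = i := List.getElem_idxOf h5
          refine List.mem_drop_iff_getElem.2 ⟨ℓ.idxOf i - j, by omega, ?_⟩
          have h7 : j + (ℓ.idxOf i - j) = ℓ.idxOf i := by omega
          simp only [h7]
          exact h6) le_rfl) c
      exact h2) hpos hv
  -- the univariate polynomial of the seed
  let q : Polynomial K := MvPolynomial.aeval (fun i => if i ∈ ℓ then gen (seg n k w) (lam n) (ℓ.idxOf i) Polynomial.X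
    else Polynomial.C (v i)) f
  have hq : ∀ y : K, q.eval y =
      eval (fun i => if i ∈ ℓ then gen (seg n k w) (lam n) (ℓ.idxOf i) y else v i) f := by
    intro y
    have h1 : (Polynomial.evalRingHom y).comp (MvPolynomial.aeval (fun i => if i ∈ ℓ then
        gen (seg n k w) (lam n) (ℓ.idxOf i) Polynomial.X else Polynomial.C (v i))).toRingHom =
        MvPolynomial.eval (fun i => if i ∈ ℓ then gen (seg n k w) (lam n) (ℓ.idxOf i) y else v i) := by
      apply MvPolynomial.ringHom_ext
      · intro a
        simp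
      · intro i
        simp only [AlgHom.toRingHom_eq_coe, RingHom.coe_comp, RingHom.coe_coe, Function.comp_apply,
          aeval_X, eval_X]
        split_ifs with hi
        · rw [map_gen, Polynomial.coe_evalRingHom, Polynomial.eval_X]
        · simp
    exact congrArg (fun φ : MvPolynomial (Fin n) K →+* K => φ f) h1
  have hq0 : q ≠ 0 := by
    intro h0
    apply ht
    have h1 := hq t
    rw [h0, Polynomial.eval_zero] at h1
    rw [h1]
    congr 2
    funext i
    unfold val
    simp only [Set.mem_ofPred_eq]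
    split_ifs with hi
    · rw [Nat.mod_eq_of_lt (hpos i hi)]
    · rfl
  have hdeg : q.natDegree ≤ n * e * seg n k w ^ lam n := by
    refine MvPolynomial.aeval_natDegree_le f (totalDegree_le f e he) _ (fun i => ?_)
    split_ifs with hi
    · refine (natDegree_gen _ hW _ _ _).trans ?_
      rw [Polynomial.natDegree_X, mul_one]
    · rw [Polynomial.natDegree_C]
      exact Nat.zero_le _
  obtain ⟨y, hy, h1⟩ := exists_nat q hq0 _ hdeg
  refine ⟨y, hy, ?_⟩
  rw [hq] at h1
  have h2 : (fun i => if i ∈ ℓ then ((gen (seg n k w) (lam n) (ℓ.idxOf i) y : ℕ) : K) else v i) =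
      fun i => if i ∈ ℓ then gen (seg n k w) (lam n) (ℓ.idxOf i) (y : K) else v i := by
    funext i
    have h3 : ((gen (seg n k w) (lam n) (ℓ.idxOf i) y : ℕ) : K) = gen (seg n k w) (lam n) (ℓ.idxOf i) (y : K) :=
      map_gen (Nat.castRingHom K) _ _ _ _
    rw [h3]
  rw [h2]
  exact h1

theorem hitting (P : Prog K n w) (c : Fin w × Fin w → K) (k e : ℕ) (hk : 2 ≤ k) (hkl : k ≤ lam n)
    (f : MvPolynomial (Fin n) K) (hf : f = ∑ p, C (c p) * progMatrix P p.1 p.2) (he : ∀ i, f.degreeOf i ≤ e)
    (hf0 : f ≠ 0) : ∃ a ∈ hittingSet (P.map Prod.fst) k w e, eval (fun i => (a i : K)) f ≠ 0 := by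
  classical
  set τ := P.map Prod.fst with hτ
  set S0 : List (Fin n) := (List.finRange n).filter fun v => decide (1 ≤ τ.count v ∧ τ.count v ≤ k) with hS0
  have hS0n : S0.Nodup := (List.nodup_finRange n).filter _
  have hS0m : ∀ v, v ∈ S0 ↔ 1 ≤ τ.count v ∧ τ.count v ≤ k := by
    intro v
    rw [hS0, List.mem_filter, decide_eq_true_iff]
    simp
  -- the base
  obtain ⟨a0, ha0, ha1⟩ : ∃ a0 : Fin n → ℕ, (∀ i, a0 i ≤ e) ∧ eval (fun i => (a0 i : K)) f ≠ 0 := by
    by_contra hcon
    push Not at hcon
    apply hf0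
    refine eq_zero_of_eval_zero_at_prod_finset f (fun _ => (Finset.range (e + 1)).image (Nat.cast : ℕ → K)) ?_ ?_
    · intro i
      rw [Finset.card_image_of_injective _ Nat.cast_injective, Finset.card_range]
      exact Nat.lt_succ_of_le (he i)
    · intro x hx
      have h1 : ∀ i, ∃ a : ℕ, a ≤ e ∧ (a : K) = x i := by
        intro i
        obtain ⟨a, ha, h⟩ := Finset.mem_image.1 (hx i)
        exact ⟨a, by rw [Finset.mem_range] at ha; omega, h⟩
      choose a h2 h3 using h1
      have h4 := hcon a h2
      have h5 : (fun i => (a i : K)) = x := funext h3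
      rwa [h5] at h4
  have hun : Indep {i | τ.count i = 0} f := by
    rw [hf]
    refine Indep.sum _ _ fun p _ => Indep.mul (Indep.C _) (indep_prog _ P (fun s hs => ?_) _ _)
    intro h0
    have h1 : s.1 ∈ τ := List.mem_map_of_mem hs
    exact absurd (List.count_pos_iff.2 h1) (by
      have : τ.count s.1 = 0 := h0
      omega)
  have base : ∃ a ∈ (Fintype.piFinset fun v => if k < τ.count v then Finset.range (e + 1) else {0} :
      Finset (Fin n → ℕ)), ∃ v : Fin n → K, eval v f ≠ 0 ∧ ∀ i, i ∉ S0 → v i = (a i : K) := by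
    refine ⟨fun i => if k < τ.count i then a0 i else 0, ?_, fun i => if τ.count i = 0 then 0 else (a0 i : K), ?_, ?_⟩
    · rw [Fintype.mem_piFinset]
      intro i
      split_ifs with h
      · rw [Finset.mem_range]
        exact Nat.lt_succ_of_le (ha0 i)
      · simp
    · rw [hun _ (fun i => (a0 i : K))]
      · exact ha1
      · intro i hi
        have hi' : τ.count i ≠ 0 := hi
        rw [if_neg hi']
    · intro i hi
      dsimp only
      rw [hS0m] at hi
      by_cases h0 : τ.count i = 0
      · rw [if_pos h0, if_neg (by omega), Nat.cast_zero]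
      · rw [if_neg h0, if_pos (by omega)]
  -- the blocks
  have main : ∀ bl : List (List (Fin n)), (∀ ℓ ∈ bl, ∃ S' : List (Fin n), S'.Nodup ∧ (∀ v ∈ S', v ∈ S0) ∧
      ℓ = layout τ k (chunks n k) (depth n k) S') →
      ∃ a ∈ bl.foldr (fun ℓ H => Finset.image₂ (fill (seg n k w) ℓ)
        (Finset.range (n * e * seg n k w ^ lam n + 1)) H)
        (Fintype.piFinset fun v => if k < τ.count v then Finset.range (e + 1) else {0}),
      ∃ v : Fin n → K, eval v f ≠ 0 ∧ ∀ i, (i ∉ S0 ∨ ∃ ℓ ∈ bl, i ∈ ℓ) → v i = (a i : K) := by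
    intro bl
    induction bl with
    | nil =>
      intro _
      obtain ⟨a, ha, v, hv, h⟩ := base
      refine ⟨a, ha, v, hv, fun i hi => ?_⟩
      rcases hi with hi | ⟨ℓ, hℓ, -⟩
      · exact h i hi
      · simp at hℓ
    | cons ℓ bl ih =>
      intro hbl
      obtain ⟨a, ha, v, hv, h⟩ := ih fun ℓ' h' => hbl ℓ' (List.mem_cons_of_mem _ h')
      obtain ⟨S', hS', hsub, hℓ⟩ := hbl ℓ List.mem_cons_self
      obtain ⟨y, hy, hy1⟩ := fill_step P c k e hk S' hS' (fun u hu => ((hS0m u).1 (hsub u hu)).1) ℓ hℓ f hf he v hv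
      refine ⟨fill (seg n k w) ℓ y a, ?_, _, hy1, ?_⟩
      · rw [List.foldr_cons]
        exact Finset.mem_image₂_of_mem (Finset.mem_range.2 hy) ha
      · intro i hi
        unfold fill
        by_cases h1 : i ∈ ℓ
        · rw [if_pos h1, if_pos h1]
        · rw [if_neg h1, if_neg h1]
          apply h
          rcases hi with hi | ⟨ℓ', hℓ', hi⟩
          · exact Or.inl hi
          · rcases List.mem_cons.1 hℓ' with rfl | hℓ'
            · exact absurd hi h1
            · exact Or.inr ⟨ℓ', hℓ', hi⟩
  obtain ⟨a, ha, v, hv, h⟩ := main (lightBlocks τ k) (blocks_spec τ k (chunks n k) (depth n k) n S0 hS0n)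
  refine ⟨a, ha, ?_⟩
  have h1 : v = fun i => (a i : K) := by
    funext i
    apply h
    by_cases h2 : i ∈ S0
    · right
      have hlen : S0.length ≤ n := by
        have := hS0n.length_le_card
        rwa [Fintype.card_fin] at this
      exact blocks_cover τ hk hkl n S0 hS0n (fun v hv => ((hS0m v).1 hv).1) (fun v hv => ((hS0m v).1 hv).2) hlen i h2
    · exact Or.inl h2
  rw [← h1]
  exact hv

end

/-- the number of heavy variables -/
theorem heavy_card {n : ℕ} (τ : List (Fin n)) (k : ℕ) :
    (Finset.univ.filter fun v => k < τ.count v).card * (k + 1) ≤ τ.length := by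
  classical
  have h1 : ∑ v : Fin n, τ.count v = τ.length := by
    have := Multiset.toFinset_sum_count_eq (τ : Multiset (Fin n))
    simp only [Multiset.coe_count, Multiset.coe_card] at this
    rw [← this]
    symm
    refine Finset.sum_subset (Finset.subset_univ _) ?_
    intro v _ hv
    have h0 : v ∉ τ := by simpa using hv
    exact List.count_eq_zero.2 h0
  calc (Finset.univ.filter fun v => k < τ.count v).card * (k + 1)
      = ∑ _v ∈ Finset.univ.filter fun v => k < τ.count v, (k + 1) := by rw [Finset.sum_const, smul_eq_mul]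
    _ ≤ ∑ v ∈ Finset.univ.filter fun v => k < τ.count v, τ.count v :=
        Finset.sum_le_sum fun v hv => (Finset.mem_filter.1 hv).2
    _ ≤ ∑ v : Fin n, τ.count v := Finset.sum_le_sum_of_subset (Finset.filter_subset _ _)
    _ = τ.length := h1

theorem card_hittingSet {n : ℕ} (τ : List (Fin n)) (k w e : ℕ) :
    (hittingSet τ k w e).card ≤ (n * e * seg n k w ^ lam n + 1) ^ (lightBlocks τ k).length *
      (e + 1) ^ (Finset.univ.filter fun v => k < τ.count v).card := by
  classical
  unfold hittingSet
  generalize lightBlocks τ k = bl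
  induction bl with
  | nil =>
    rw [List.foldr_nil, List.length_nil, pow_zero, one_mul, Fintype.card_piFinset]
    have h1 : ∀ v : Fin n, (if k < τ.count v then Finset.range (e + 1) else {0}).card =
        if k < τ.count v then e + 1 else 1 := by
      intro v
      split_ifs
      · rw [Finset.card_range]
      · rw [Finset.card_singleton]
    rw [Finset.prod_congr rfl fun v _ => h1 v, Finset.prod_ite, Finset.prod_const, Finset.prod_const, one_pow, mul_one]
  | cons ℓ bl ih =>
    rw [List.foldr_cons]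
    refine (Finset.card_image₂_le _ _ _).trans ?_
    rw [Finset.card_range, List.length_cons, pow_succ']
    calc _ ≤ (n * e * seg n k w ^ lam n + 1) *
          ((n * e * seg n k w ^ lam n + 1) ^ bl.length * (e + 1) ^ (Finset.univ.filter fun v => k < τ.count v).card) :=
          Nat.mul_le_mul_left _ ih
      _ = _ := by ring

end Pool.Agent.V8H74.RK
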