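import Pool.Agent.V8H74.RK.Layout

/-!
# Layouts are large
-/

set_option autoImplicit false

namespace Pool.Agent.V8H74.RK

theorem comb_cut {k : ℕ} (hk : 1 ≤ k) {N Q E e a b x y cap : ℝ} (hN : 0 ≤ N) (hQ : 0 < Q) (hE : 0 ≤ E)
    (he0 : 0 ≤ e) (he1 : e ≤ 1) (hab : e * N ^ 2 ≤ 4 ^ k * (a * b)) (haN : a ≤ N) (hb0 : 0 ≤ b)
    (hcap : (3 / 4) ^ k * N ≤ cap) (hx : E * cap ≤ Q * x ^ k)
    (hy : E * min b cap ≤ Q * y ^ k) (hx0 : 0 ≤ x) (hy0 : 0 ≤ y) : e * E * N ≤ Q * (x + y) ^ k := by
  rcases eq_or_lt_of_le hN with h0 | hN0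
  · rw [← h0, mul_zero]
    positivity
  have hk0 : k ≠ 0 := by omega
  set z := e * E * N / Q with hz
  have hz0 : 0 ≤ z := by positivity
  set μ := z ^ ((1 : ℝ) / k) with hμ
  have hμ0 : 0 ≤ μ := Real.rpow_nonneg hz0 _
  have hμk : μ ^ k = z := by
    rw [hμ, ← Real.rpow_natCast, ← Real.rpow_mul hz0]
    rw [one_div_mul_cancel (by exact_mod_cast hk0), Real.rpow_one]
  have hQz : Q * z = e * E * N := by
    rw [hz]
    field_simp
  have h34 : (0 : ℝ) < (3 / 4) ^ k := by positivity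
  have h14 : (0 : ℝ) < (1 / 4) ^ k := by positivity
  have h1434 : ((1 : ℝ) / 4) ^ k ≤ (3 / 4) ^ k := pow_le_pow_left₀ (by norm_num) (by norm_num) k
  have h1 : (3 / 4) * μ ≤ x := by
    rw [← pow_le_pow_iff_left₀ (by positivity) hx0 hk0, mul_pow, hμk]
    have h2 : Q * ((3 / 4) ^ k * z) ≤ Q * x ^ k := by
      calc Q * ((3 / 4) ^ k * z) = (3 / 4) ^ k * (e * E * N) := by rw [← hQz]; ring
        _ = e * (E * ((3 / 4) ^ k * N)) := by ring
        _ ≤ 1 * (E * ((3 / 4) ^ k * N)) := mul_le_mul_of_nonneg_right he1 (by positivity)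
        _ ≤ 1 * (E * cap) := by
            rw [one_mul, one_mul]
            exact mul_le_mul_of_nonneg_left hcap hE
        _ = E * cap := one_mul _
        _ ≤ _ := hx
    exact le_of_mul_le_mul_left h2 hQ
  have hbN : e * N * (1 / 4) ^ k ≤ b := by
    have h3 : e * N ^ 2 ≤ 4 ^ k * (N * b) :=
      hab.trans (mul_le_mul_of_nonneg_left (mul_le_mul_of_nonneg_right haN hb0) (by positivity))
    have h4 : N * (e * N) ≤ N * (4 ^ k * b) := by nlinarith
    have h5 := le_of_mul_le_mul_left h4 hN0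
    calc e * N * (1 / 4) ^ k ≤ 4 ^ k * b * (1 / 4) ^ k := mul_le_mul_of_nonneg_right h5 h14.le
      _ = b * (4 * (1 / 4)) ^ k := by rw [mul_pow]; ring
      _ = b := by norm_num
  have hbc : e * N * (1 / 4) ^ k ≤ min b cap := by
    refine le_min hbN (le_trans ?_ hcap)
    calc e * N * (1 / 4) ^ k ≤ 1 * N * (3 / 4) ^ k := by
          refine mul_le_mul (mul_le_mul_of_nonneg_right he1 hN) h1434 h14.le (by positivity)
      _ = (3 / 4) ^ k * N := by ring
  have h6 : (1 / 4) * μ ≤ y := by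
    rw [← pow_le_pow_iff_left₀ (by positivity) hy0 hk0, mul_pow, hμk]
    have h7 : Q * ((1 / 4) ^ k * z) ≤ Q * y ^ k := by
      calc Q * ((1 / 4) ^ k * z) = (1 / 4) ^ k * (e * E * N) := by rw [← hQz]; ring
        _ = E * (e * N * (1 / 4) ^ k) := by ring
        _ ≤ E * min b cap := mul_le_mul_of_nonneg_left hbc hE
        _ ≤ _ := hy
    exact le_of_mul_le_mul_left h7 hQ
  have h8 : μ ≤ x + y := by linarith
  calc e * E * N = Q * μ ^ k := by rw [hμk, hQz]
    _ ≤ Q * (x + y) ^ k := mul_le_mul_of_nonneg_left (pow_le_pow_left₀ hμ0 h8 k) hQ.le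

theorem comb {k : ℕ} (hk : 1 ≤ k) {N Q E e a b x y cap : ℝ} (hN : 0 ≤ N) (hQ : 0 < Q) (hE : 0 ≤ E)
    (he0 : 0 ≤ e) (he1 : e ≤ 1) (hab : e * N ^ 2 ≤ 4 ^ k * (a * b)) (ha0 : 0 ≤ a) (haN : a ≤ N) (hb0 : 0 ≤ b)
    (hbN : b ≤ N) (hcap : (3 / 4) ^ k * N ≤ cap) (hx : E * min a cap ≤ Q * x ^ k)
    (hy : E * min b cap ≤ Q * y ^ k) (hx0 : 0 ≤ x) (hy0 : 0 ≤ y) : e * E * N ≤ Q * (x + y) ^ k := by
  rcases le_total cap a with h1 | h1
  · rw [min_eq_right h1] at hx
    exact comb_cut hk hN hQ hE he0 he1 hab haN hb0 hcap hx hy hx0 hy0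
  rcases le_total cap b with h2 | h2
  · rw [min_eq_right h2] at hy
    rw [add_comm x y]
    refine comb_cut hk hN hQ hE he0 he1 ?_ hbN ha0 hcap hy hx hy0 hx0
    rw [mul_comm b a]
    exact hab
  rw [min_eq_left h1] at hx
  rw [min_eq_left h2] at hy
  have h3 : (E * a) * (E * b) ≤ (Q * x ^ k) * (Q * y ^ k) :=
    mul_le_mul hx hy (by positivity) (by positivity)
  have h4 : 4 ^ k * (x * y) ^ k ≤ ((x + y) ^ k) ^ 2 := by
    rw [← mul_pow, ← pow_mul, mul_comm k 2, pow_mul]
    refine pow_le_pow_left₀ (by positivity) ?_ k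
    nlinarith [sq_nonneg (x - y)]
  have h5 : (e * E * N) ^ 2 ≤ (Q * (x + y) ^ k) ^ 2 := by
    calc (e * E * N) ^ 2 = e * (E ^ 2 * (e * N ^ 2)) := by ring
      _ ≤ 1 * (E ^ 2 * (e * N ^ 2)) := mul_le_mul_of_nonneg_right he1 (by positivity)
      _ = E ^ 2 * (e * N ^ 2) := one_mul _
      _ ≤ E ^ 2 * (4 ^ k * (a * b)) := mul_le_mul_of_nonneg_left hab (by positivity)
      _ = 4 ^ k * ((E * a) * (E * b)) := by ring
      _ ≤ 4 ^ k * ((Q * x ^ k) * (Q * y ^ k)) := mul_le_mul_of_nonneg_left h3 (by positivity)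
      _ = Q ^ 2 * (4 ^ k * (x * y) ^ k) := by rw [mul_pow x y]; ring
      _ ≤ Q ^ 2 * ((x + y) ^ k) ^ 2 := mul_le_mul_of_nonneg_left h4 (by positivity)
      _ = (Q * (x + y) ^ k) ^ 2 := by ring
  exact (pow_le_pow_iff_left₀ (by positivity) (by positivity) two_ne_zero).1 h5

theorem pow_gap (k : ℕ) (hk : 1 ≤ k) : (3 : ℝ) ^ k + 1 / 2 ≤ (7 / 2) ^ k := by
  induction k, hk using Nat.le_induction with
  | base => norm_num
  | succ k _ ih =>
    have h3 : (1 : ℝ) ≤ 3 ^ k := one_le_pow₀ (by norm_num)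
    rw [pow_succ, pow_succ]
    nlinarith

theorem layout_size {n : ℕ} (τ : List (Fin n)) {k M : ℕ} (hk : 1 ≤ k) (hM : 4 * k ^ 2 ≤ M) (D : ℕ)
    (S : List (Fin n)) (hS : S.Nodup) (hc : ∀ v ∈ S, τ.count v ≤ k)
    (hsz : (S.length : ℝ) * (7 / 8) ^ (k * D) ≤ 4 ^ k * M) :
    (S.length : ℝ) * (1 - 2 * k ^ 2 / M) ^ D ≤ 4 ^ k * M * ((layout τ k M D S).length : ℝ) ^ k := by
  have hM4 : 4 ≤ M := by
    have : 1 ≤ k ^ 2 := Nat.one_le_pow _ _ hk
    omega
  have hM0 : (0 : ℝ) < M := by
    have : 0 < M := by omega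
    exact_mod_cast this
  have hk0 : k ≠ 0 := by omega
  have he : (2 * k ^ 2 / M : ℝ) ≤ 1 / 2 := by
    rw [div_le_iff₀ hM0]
    have : ((4 * k ^ 2 : ℕ) : ℝ) ≤ M := by exact_mod_cast hM
    push_cast at this
    linarith
  have he' : (0 : ℝ) ≤ 2 * k ^ 2 / M := by positivity
  set e : ℝ := 1 - 2 * k ^ 2 / M with hedef
  have he0 : 0 ≤ e := by linarith
  have he1 : e ≤ 1 := by linarith
  have htake : ∀ (S : List (Fin n)), (S.length : ℝ) ≤ 4 ^ k * M →
      (S.length : ℝ) ≤ 4 ^ k * M * ((S.take 1).length : ℝ) ^ k := by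
    intro S h
    rcases S with _ | ⟨a, S⟩
    · simp [hk0]
    · simpa using h
  induction D generalizing S with
  | zero =>
    rw [pow_zero, mul_one]
    rw [mul_zero, pow_zero, mul_one] at hsz
    exact htake S hsz
  | succ D ih =>
    have hED : e ^ (D + 1) ≤ 1 := pow_le_one₀ he0 he1
    rw [layout]
    split_ifs with hs
    · refine le_trans ?_ (htake S (by exact_mod_cast hs))
      exact mul_le_of_le_one_right (Nat.cast_nonneg _) hED
    · push Not at hs
      set S1 := part τ M S (mask τ k M S) true with hS1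
      set S0 := part τ M S (mask τ k M S) false with hS0
      set cap := 3 ^ k * S.length / 4 ^ k + 1 with hcap
      have hsR : ((4 : ℝ) ^ k * M) < S.length := by exact_mod_cast hs
      have hcap1 : (3 / 4 : ℝ) ^ k * S.length ≤ cap := by
        have h1 : 3 ^ k * S.length < (3 ^ k * S.length / 4 ^ k + 1) * 4 ^ k := by
          have := Nat.lt_mul_div_succ (3 ^ k * S.length) (show 0 < 4 ^ k by positivity)
          rw [mul_comm (3 ^ k * S.length / 4 ^ k + 1)]
          exact this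
        have h2 : ((3 : ℝ) ^ k * S.length) ≤ (cap : ℝ) * 4 ^ k := by
          have : ((3 ^ k * S.length : ℕ) : ℝ) ≤ (((3 ^ k * S.length / 4 ^ k + 1) * 4 ^ k : ℕ) : ℝ) := by
            exact_mod_cast h1.le
          rw [hcap]
          push_cast at this ⊢
          exact this
        rw [div_pow, div_mul_eq_mul_div, div_le_iff₀ (by positivity)]
        exact h2
      have hcap2 : (cap : ℝ) ≤ (7 / 8) ^ k * S.length := by
        have h1 : ((3 ^ k * S.length / 4 ^ k : ℕ) : ℝ) ≤ (3 / 4) ^ k * S.length := by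
          refine (Nat.cast_div_le).trans (le_of_eq ?_)
          push_cast
          rw [div_pow]
          ring
        have h2 := pow_gap k hk
        have h3 : (7 / 8 : ℝ) ^ k * 4 ^ k = (7 / 2) ^ k := by rw [← mul_pow]; norm_num
        have h4 : (3 / 4 : ℝ) ^ k * 4 ^ k = 3 ^ k := by rw [← mul_pow]; norm_num
        have h5 : (1 : ℝ) ≤ ((7 / 8) ^ k - (3 / 4) ^ k) * S.length := by
          have h6 : (0 : ℝ) ≤ (7 / 8) ^ k - (3 / 4) ^ k := by
            rw [sub_nonneg]
            exact pow_le_pow_left₀ (by norm_num) (by norm_num) k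
          have h7 : (4 : ℝ) ^ k * 4 ≤ S.length := by
            have : (4 : ℝ) ≤ M := by exact_mod_cast hM4
            have h8 : (4 : ℝ) ^ k * 4 ≤ 4 ^ k * M := mul_le_mul_of_nonneg_left this (by positivity)
            linarith
          calc (1 : ℝ) ≤ ((7 / 2) ^ k - 3 ^ k) * 4 := by linarith
            _ = ((7 / 8) ^ k - (3 / 4) ^ k) * (4 ^ k * 4) := by rw [← h3, ← h4]; ring
            _ ≤ ((7 / 8) ^ k - (3 / 4) ^ k) * S.length := mul_le_mul_of_nonneg_left h7 h6
        rw [hcap]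
        push_cast
        linarith
      have hlen : ∀ T : List (Fin n), ((T.take cap).length : ℝ) ≤ cap := by
        intro T
        exact_mod_cast List.length_take_le _ _
      have hsub : ∀ T : List (Fin n), ((T.take cap).length : ℝ) * (7 / 8) ^ (k * D) ≤ 4 ^ k * M := by
        intro T
        calc ((T.take cap).length : ℝ) * (7 / 8) ^ (k * D) ≤ (7 / 8) ^ k * S.length * (7 / 8) ^ (k * D) :=
              mul_le_mul_of_nonneg_right ((hlen T).trans hcap2) (by positivity)
          _ = S.length * (7 / 8) ^ (k * (D + 1)) := by rw [Nat.mul_succ, pow_add]; ring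
          _ ≤ _ := hsz
      have hn1 : (S1.take cap).Nodup := (part_nodup τ M S hS _ _).sublist (List.take_sublist _ _)
      have hn0 : (S0.take cap).Nodup := (part_nodup τ M S hS _ _).sublist (List.take_sublist _ _)
      have hc1 : ∀ v ∈ S1.take cap, τ.count v ≤ k := fun v hv =>
        hc v ((mem_part τ M S _ _ v).1 (List.mem_of_mem_take hv)).1
      have hc0 : ∀ v ∈ S0.take cap, τ.count v ≤ k := fun v hv =>
        hc v ((mem_part τ M S _ _ v).1 (List.mem_of_mem_take hv)).1
      have ih1 := ih (S1.take cap) hn1 hc1 (hsub S1)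
      have ih0 := ih (S0.take cap) hn0 hc0 (hsub S0)
      have hMS : M ≤ S.length := by
        have : M ≤ 4 ^ k * M := Nat.le_mul_of_pos_left _ (by positivity)
        omega
      have hm := mask_spec τ M S (by omega) hS hc hk hMS
      rw [← hS1, ← hS0] at hm
      have hab : e * (S.length : ℝ) ^ 2 ≤ 4 ^ k * ((S1.length : ℝ) * S0.length) := by
        have h1 : (((M - 2 * k ^ 2) * S.length ^ 2 : ℕ) : ℝ) ≤
            ((4 ^ k * M * (S1.length * S0.length) : ℕ) : ℝ) := by exact_mod_cast hm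
        rw [Nat.cast_mul, Nat.cast_sub (by omega)] at h1
        push_cast at h1
        have h2 : e = (M - 2 * k ^ 2) / M := by
          rw [hedef]
          field_simp
        rw [h2, div_mul_eq_mul_div, div_le_iff₀ hM0]
        calc ((M : ℝ) - 2 * k ^ 2) * S.length ^ 2 ≤ 4 ^ k * M * (S1.length * S0.length) := h1
          _ = _ := by ring
      have hmin : ∀ T : List (Fin n), ((T.take cap).length : ℝ) = min (T.length : ℝ) cap := by
        intro T
        rw [List.length_take, Nat.cast_min, min_comm]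
      rw [List.length_append]
      push_cast
      have hle1 : (S1.length : ℝ) ≤ S.length := by
        have : S1.length ≤ S.length := by
          rw [hS1]
          unfold part
          exact List.length_filter_le _ _
        exact_mod_cast this
      have hle0 : (S0.length : ℝ) ≤ S.length := by
        have : S0.length ≤ S.length := by
          rw [hS0]
          unfold part
          exact List.length_filter_le _ _
        exact_mod_cast this
      have hfin := comb (k := k) hk (N := S.length) (Q := 4 ^ k * M) (E := e ^ D) (e := e) (a := S1.length)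
        (b := S0.length) (x := (layout τ k M D (S1.take cap)).length) (y := (layout τ k M D (S0.take cap)).length)
        (cap := cap) (Nat.cast_nonneg _) (by positivity) (pow_nonneg he0 _) he0 he1 hab (Nat.cast_nonneg _) hle1
        (Nat.cast_nonneg _) hle0 hcap1 (by rw [← hmin, mul_comm]; exact ih1) (by rw [← hmin, mul_comm]; exact ih0)
        (Nat.cast_nonneg _) (Nat.cast_nonneg _)
      calc (S.length : ℝ) * e ^ (D + 1) = e * e ^ D * S.length := by rw [pow_succ]; ring
        _ ≤ _ := hfin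

end Pool.Agent.V8H74.RK
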